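import Mathlib
import Pool.Agent.W522.U.Defs
import Pool.Agent.W528.Tor.Defs

/-!
# Definitions for the theorems on the identity component of the Zariski closure
-/

namespace Pool.Agent.W528.ZC

open Module MvPolynomial

noncomputable section

variable {k : Type} [Field k] {ι : Type} [Fintype ι] [DecidableEq ι] {Γ : Type} [Group Γ]

/-- The representation on `Ω^ι` given by the matrices `ρ s`, with entries in the subfield `k`. -/
def repM (ρ : Γ →* Matrix ι ι k) (Ω : Type) [Field Ω] [Algebra k Ω] :
    Representation Ω Γ (ι → Ω) where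
  toFun s := Matrix.toLin' ((ρ s).map (algebraMap k Ω))
  map_one' := by
    rw [map_one, Matrix.map_one _ (map_zero _) (map_one _), Matrix.toLin'_one]
    rfl
  map_mul' s t := by
    rw [map_mul, Matrix.map_mul, Matrix.toLin'_mul]
    rfl

/-- Semisimplicity on all subgroups of finite index: every subspace stable under a subgroup of
finite index has a complement that is stable under this subgroup. -/
def SemiM (ρ : Γ →* Matrix ι ι k) : Prop :=
  ∀ Δ : Subgroup Γ, Δ.FiniteIndex → ∀ U : Submodule k (ι → k),
    (∀ s ∈ Δ, ∀ u ∈ U, (ρ s).mulVec u ∈ U) →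
    ∃ U' : Submodule k (ι → k), (∀ s ∈ Δ, ∀ u ∈ U', (ρ s).mulVec u ∈ U') ∧ IsCompl U U'

/-- The value of a polynomial in the entries at the matrix `x`. -/
def val {Ω : Type} [Field Ω] (x : Matrix ι ι Ω) (f : MvPolynomial (ι × ι) Ω) : Ω :=
  aeval (fun p => x p.1 p.2) f

/-- The polynomial `f` vanishes on the image of a subgroup of finite index: these polynomials are
the ideal of the identity component of the Zariski closure of the image of `ρ`. -/
def Vanishes {Ω : Type} [Field Ω] [Algebra k Ω] (ρ : Γ →* Matrix ι ι k)
    (f : MvPolynomial (ι × ι) Ω) : Prop :=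
  ∃ Δ : Subgroup Γ, Δ.FiniteIndex ∧ ∀ s ∈ Δ, val ((ρ s).map (algebraMap k Ω)) f = 0

/-- The matrix `g` is in the identity component of the Zariski closure of the image of `ρ`: all
polynomials in the entries that vanish on the image of a subgroup of finite index vanish at
`g`. -/
def InIdentityComponent {Ω : Type} [Field Ω] [Algebra k Ω] (ρ : Γ →* Matrix ι ι k)
    (g : Matrix ι ι Ω) : Prop :=
  ∀ f : MvPolynomial (ι × ι) Ω, Vanishes ρ f → val g f = 0

/-- The idempotent matrix `p` gives a weak Hodge cocharacter `c ↦ 1 - p + c p` of the identity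
component of the Zariski closure (weights `0` and `1`, multiplier `c`). -/
def WeakHodge {Ω : Type} [Field Ω] [Algebra k Ω] (ρ : Γ →* Matrix ι ι k) (ψ p : Matrix ι ι Ω) :
    Prop :=
  p * p = p ∧ p.transpose * ψ + ψ * p = ψ ∧
    ∀ c : Ω, c ≠ 0 → InIdentityComponent ρ (1 - p + c • p)

/-- The theorem of Pink: the identity component of the Zariski closure is generated by the weak
Hodge cocharacters (a polynomial that vanishes on the group generated by their values vanishes on
the image of a subgroup of finite index). -/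
def HodgeGenerated {Ω : Type} [Field Ω] [Algebra k Ω] (ρ : Γ →* Matrix ι ι k)
    (ψ : Matrix ι ι Ω) : Prop :=
  ∀ f : MvPolynomial (ι × ι) Ω, (∀ x ∈ Submonoid.closure {x : Matrix ι ι Ω |
    ∃ (p : Matrix ι ι Ω) (c : Ω), WeakHodge ρ ψ p ∧ c ≠ 0 ∧ x = 1 - p + c • p}, val x f = 0) →
    Vanishes ρ f

/-- Every strongly irreducible subspace `U` (`SI`) is self-dual with an alternating pairing
(`AltDual`), and there is an element `γ` of the group with `(γ - 1) ^ 2 = 0` such that the rank of
`γ - 1` on `U` is two or odd. -/
def OddOrTwo {K : Type} [Field K] {X : Type} [AddCommGroup X] [Module K X]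
    (R : Representation K Γ X) (χ : Γ →* K) : Prop :=
  ∀ U, Pool.Agent.W522.U.SI R U → Pool.Agent.W528.Tor.AltDual R χ U ∧
    ∃ γ : Γ, (R γ - 1) * (R γ - 1) = 0 ∧
      (finrank K (U.map (R γ - 1)) = 2 ∨ Odd (finrank K (U.map (R γ - 1))))

/-- The known properties of the representation `ρ` of the Galois group on the rational Tate module
`k^ι` (`k = ℚ_ℓ`) of an abelian variety with endomorphisms `E` (over all finite extensions) and
polarization form `ψ`; `χ` is the cyclotomic character and `Ω` an algebraic closure of `k`. -/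
structure Known (Ω : Type) [Field Ω] [Algebra k Ω] (ρ : Γ →* Matrix ι ι k) (χ : Γ →* k)
    (ψ : Matrix ι ι k) (E : Set (Matrix ι ι k)) : Prop where
  /-- the Weil pairing -/
  form : ∀ s, (ρ s).transpose * ψ * ρ s = χ s • ψ
  /-- the endomorphisms are defined over a finite extension -/
  endo : ∃ Δ : Subgroup Γ, Δ.FiniteIndex ∧ ∀ s ∈ Δ, ∀ e ∈ E, e * ρ s = ρ s * e
  /-- Faltings: matrices that commute with a subgroup of finite index come from endomorphisms -/
  comm : ∀ Δ : Subgroup Γ, Δ.FiniteIndex → ∀ M : Matrix ι ι k,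
    (∀ s ∈ Δ, M * ρ s = ρ s * M) → M ∈ Submodule.span k E
  /-- Faltings: semisimplicity -/
  semi : SemiM ρ
  /-- Hodge-Tate, Sen: the Hodge-Tate cocharacter is a cocharacter of the monodromy group -/
  hodgeTate : ∃ p : Matrix ι ι Ω, WeakHodge ρ (ψ.map (algebraMap k Ω)) p
  /-- Pink: the weak Hodge cocharacters generate the connected monodromy group -/
  pink : HodgeGenerated ρ (ψ.map (algebraMap k Ω))

end

end Pool.Agent.W528.ZC
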