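import Mathlib

/-!
# Polynomial functions on matrices: evaluation, substitution, derivations
-/

namespace Pool.Agent.W528.ZC

open MvPolynomial

noncomputable section

variable {K : Type} [Field K] {ι : Type} [Fintype ι] [DecidableEq ι]

/-- The value of a polynomial in the entries at the matrix `x`. -/
def ev (x : Matrix ι ι K) : MvPolynomial (ι × ι) K →ₐ[K] K := aeval fun p => x p.1 p.2

/-- The substitution `f(X) ↦ f(a X b)`. -/
def sub (a b : Matrix ι ι K) : MvPolynomial (ι × ι) K →ₐ[K] MvPolynomial (ι × ι) K :=
  aeval fun p => ∑ i, ∑ j, C (a p.1 i * b j p.2) * X (i, j)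

/-- The derivation with `D y (X) = X y`: the derivative of `f(X (1 + t y))` at `t = 0`. -/
def D (y : Matrix ι ι K) :
    Derivation K (MvPolynomial (ι × ι) K) (MvPolynomial (ι × ι) K) :=
  mkDerivation K fun p => ∑ j, C (y j p.2) * X (p.1, j)

end

end Pool.Agent.W528.ZC
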