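import Mathlib
import Pool.Agent.W528.ZC.Defs

/-!
# Statements for the identity component of the Zariski closure
-/

namespace Pool.Agent.W528.ZC

open Module MvPolynomial

noncomputable section

/-- BR.  The bracket of two of the derivations. -/
def BR : Prop :=
  ∀ (K : Type) [Field K] (ι : Type) [Fintype ι] [DecidableEq ι] (x y : Matrix ι ι K)
    (f : MvPolynomial (ι × ι) K), D x (D y f) - D y (D x f) = D (x * y - y * x) f

/-- CJ.  Conjugation. -/
def CJ : Prop :=
  ∀ (K : Type) [Field K] (ι : Type) [Fintype ι] [DecidableEq ι] (a b y : Matrix ι ι K),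
    a * b = 1 → b * a = 1 → ∀ f : MvPolynomial (ι × ι) K,
    D y (sub a b f) = sub a b (D (a * y * b) f) ∧ sub b a (sub a b f) = f

/-- UN.  Unipotent elements and nilpotent derivations. -/
def UN : Prop :=
  ∀ (K : Type) [Field K] [CharZero K] (ι : Type) [Fintype ι] [DecidableEq ι] (n : Matrix ι ι K),
    n * n = 0 → ∀ S : Submodule K (MvPolynomial (ι × ι) K),
    ((∀ f ∈ S, D n f ∈ S) → ∀ f ∈ S, ∀ t : K, sub 1 (1 + t • n) f ∈ S) ∧
    (∀ f, {t : K | sub 1 (1 + t • n) f ∈ S}.Infinite → D n f ∈ S)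

/-- ID.  Idempotents. -/
def ID : Prop :=
  ∀ (K : Type) [Field K] [CharZero K] (ι : Type) [Fintype ι] [DecidableEq ι] (p : Matrix ι ι K),
    p * p = p → ∀ S : Submodule K (MvPolynomial (ι × ι) K),
    ∀ f, {c : K | sub 1 (1 - p + c • p) f ∈ S}.Infinite → D p f ∈ S

/-- TR.  The symplectic group is generated by transvections. -/
def TR : Prop :=
  ∀ (K : Type) [Field K] (V : Type) [AddCommGroup V] [Module K V] [FiniteDimensional K V]
    (ω : V →ₗ[K] V →ₗ[K] K), (∀ v, ω v v = 0) → (∀ u, (∀ v, ω u v = 0) → u = 0) →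
    ∀ g : Module.End K V, (∀ u v, ω (g u) (g v) = ω u v) →
    g ∈ Submonoid.closure {T : Module.End K V | ∃ (c : K) (u : V),
      T = 1 + c • (ω u).smulRight u}

end

end Pool.Agent.W528.ZC
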