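import Mathlib
import Pool.Agent.W347.ZC.BR
import Pool.Agent.W240.ZC.CJ
import Pool.Agent.W239.ZC.UN
import Pool.Agent.W978.ZC.ID
import Pool.Agent.W948.ZC.TR

/-!
# The parts proved by the helpers
-/

namespace Pool.Agent.W528.ZC

theorem hBR : BR := Pool.Agent.W347.ZC.BR.main
theorem hCJ : CJ := Pool.Agent.W240.ZC.CJ.main
theorem hUN : UN := Pool.Agent.W239.ZC.UN.main
theorem hID : ID := Pool.Agent.W978.ZC.ID.main
theorem hTR : TR := Pool.Agent.W948.ZC.TR.main

end Pool.Agent.W528.ZC
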