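import Mathlib
import Pool.Agent.W528.ZC.Stm

/-!
# The identity component of the Zariski closure and its Lie algebra
-/

set_option linter.unusedSectionVars false

namespace Pool.Agent.W528.ZC

open Module MvPolynomial

noncomputable section

section basic

variable {K : Type} [Field K] {ι : Type} [Fintype ι] [DecidableEq ι]

theorem ev_X (x : Matrix ι ι K) (p : ι × ι) : ev x (X p) = x p.1 p.2 := by
  unfold ev
  rw [aeval_X]

theorem sub_X (a b : Matrix ι ι K) (p : ι × ι) :
    sub a b (X p) = ∑ i, ∑ j, C (a p.1 i * b j p.2) * X (i, j) := by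
  unfold sub
  rw [aeval_X]

theorem D_X (y : Matrix ι ι K) (p : ι × ι) : D y (X p) = ∑ j, C (y j p.2) * X (p.1, j) := by
  unfold D
  rw [mkDerivation_X]

theorem ev_C (x : Matrix ι ι K) (c : K) : ev x (C c) = c := by
  unfold ev
  rw [aeval_C]
  rfl

theorem ev_sub (x a b : Matrix ι ι K) (f : MvPolynomial (ι × ι) K) :
    ev x (sub a b f) = ev (a * x * b) f := by
  have h : (ev x).comp (sub a b) = ev (a * x * b) := by
    refine MvPolynomial.algHom_ext fun p => ?_
    rw [AlgHom.comp_apply, sub_X, ev_X, map_sum]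
    rw [Matrix.mul_apply]
    simp only [map_sum, map_mul, ev_C, ev_X, Matrix.mul_apply, Finset.sum_mul]
    rw [Finset.sum_comm]
    refine Finset.sum_congr rfl fun j _ => Finset.sum_congr rfl fun i _ => ?_
    ring
  exact congrArg (fun g : MvPolynomial (ι × ι) K →ₐ[K] K => g f) h

theorem ev_ext [Infinite K] {f g : MvPolynomial (ι × ι) K} (h : ∀ x, ev x f = ev x g) :
    f = g := by
  refine MvPolynomial.funext fun x => ?_
  have h1 := h (Matrix.of fun i j => x (i, j))
  exact h1

theorem sub_sub [Infinite K] (a b a' b' : Matrix ι ι K) (f : MvPolynomial (ι × ι) K) :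
    sub a b (sub a' b' f) = sub (a' * a) (b * b') f := by
  refine ev_ext fun x => ?_
  rw [ev_sub, ev_sub, ev_sub]
  congr 1
  noncomm_ring

theorem sub_one [Infinite K] (f : MvPolynomial (ι × ι) K) : sub 1 1 f = f := by
  refine ev_ext fun x => ?_
  rw [ev_sub, one_mul, mul_one]

theorem D_add (y y' : Matrix ι ι K) (f : MvPolynomial (ι × ι) K) :
    D (y + y') f = D y f + D y' f := by
  have h : D (y + y') = D y + D y' := by
    refine MvPolynomial.derivation_ext fun p => ?_
    rw [Derivation.add_apply, D_X, D_X, D_X, ← Finset.sum_add_distrib]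
    refine Finset.sum_congr rfl fun j _ => ?_
    rw [Matrix.add_apply, C_add, add_mul]
  rw [h]
  rfl

theorem D_smul (c : K) (y : Matrix ι ι K) (f : MvPolynomial (ι × ι) K) :
    D (c • y) f = c • D y f := by
  have h : D (c • y) = c • D y := by
    refine MvPolynomial.derivation_ext fun p => ?_
    rw [Derivation.smul_apply, D_X, D_X, Finset.smul_sum]
    refine Finset.sum_congr rfl fun j _ => ?_
    rw [Matrix.smul_apply, smul_eq_mul, C_mul, mul_assoc, smul_eq_C_mul]
  rw [h]
  rfl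

end basic

section lie

variable {K : Type} [Field K] {ι : Type} [Fintype ι] [DecidableEq ι] {Γ : Type} [Group Γ]
  (R : Representation K Γ (ι → K))

/-- The matrix of an operator. -/
abbrev toM (x : Module.End K (ι → K)) : Matrix ι ι K := LinearMap.toMatrix' x

theorem toM_mul (x y : Module.End K (ι → K)) : toM (x * y) = toM x * toM y :=
  LinearMap.toMatrix'_mul x y

theorem toM_one : toM (1 : Module.End K (ι → K)) = 1 := LinearMap.toMatrix'_one

/-- The polynomials that vanish on the image of a subgroup of finite index: the ideal of the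
identity component of the Zariski closure. -/
def I0 : Submodule K (MvPolynomial (ι × ι) K) where
  carrier := {f | ∃ Δ : Subgroup Γ, Δ.FiniteIndex ∧ ∀ g ∈ Δ, ev (toM (R g)) f = 0}
  zero_mem' := ⟨⊤, inferInstance, fun g _ => map_zero _⟩
  add_mem' := by
    rintro f f' ⟨Δ, hΔ, h⟩ ⟨Δ', hΔ', h'⟩
    exact ⟨Δ ⊓ Δ', inferInstance, fun g hg => by rw [map_add, h g hg.1, h' g hg.2, add_zero]⟩
  smul_mem' := by
    rintro c f ⟨Δ, hΔ, h⟩
    exact ⟨Δ, hΔ, fun g hg => by rw [map_smul, h g hg, smul_zero]⟩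

variable {R}

theorem mem_I0 {f : MvPolynomial (ι × ι) K} : f ∈ I0 R ↔
    ∃ Δ : Subgroup Γ, Δ.FiniteIndex ∧ ∀ g ∈ Δ, ev (toM (R g)) f = 0 := Iff.rfl

variable (R)

/-- The operator `x` is in the identity component of the Zariski closure. -/
def InZ (x : Module.End K (ι → K)) : Prop := ∀ f ∈ I0 R, ev (toM x) f = 0

/-- The Lie algebra of the Zariski closure. -/
def Lg : Submodule K (Module.End K (ι → K)) where
  carrier := {y | ∀ f ∈ I0 R, D (toM y) f ∈ I0 R}
  zero_mem' := by
    intro f _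
    have h : D (toM (0 : Module.End K (ι → K))) f = 0 := by
      have h1 := D_smul (0 : K) (1 : Matrix ι ι K) f
      rw [zero_smul, zero_smul] at h1
      rw [show toM (0 : Module.End K (ι → K)) = 0 from map_zero _, h1]
    rw [h]
    exact Submodule.zero_mem _
  add_mem' := by
    intro y y' h h' f hf
    rw [show toM (y + y') = toM y + toM y' from map_add _ _ _, D_add]
    exact Submodule.add_mem _ (h f hf) (h' f hf)
  smul_mem' := by
    intro c y h f hf
    rw [show toM (c • y) = c • toM y from map_smul _ _ _, D_smul]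
    exact Submodule.smul_mem _ _ (h f hf)

variable {R}

theorem Lg_br (hBR : BR) {x y : Module.End K (ι → K)} (hx : x ∈ Lg R) (hy : y ∈ Lg R) :
    x * y - y * x ∈ Lg R := by
  intro f hf
  rw [show toM (x * y - y * x) = toM x * toM y - toM y * toM x by
    rw [← toM_mul, ← toM_mul]
    exact map_sub _ _ _, ← hBR K ι (toM x) (toM y) f]
  exact Submodule.sub_mem _ (hx _ (hy _ hf)) (hy _ (hx _ hf))

theorem Rmul_inv (s : Γ) : toM (R s) * toM (R s⁻¹) = 1 := by
  rw [← toM_mul, ← map_mul, mul_inv_cancel, map_one, toM_one]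

theorem Rinv_mul (s : Γ) : toM (R s⁻¹) * toM (R s) = 1 := by
  rw [← toM_mul, ← map_mul, inv_mul_cancel, map_one, toM_one]

theorem sub_conj_mem (s : Γ) {f : MvPolynomial (ι × ι) K} (hf : f ∈ I0 R) :
    sub (toM (R s)) (toM (R s⁻¹)) f ∈ I0 R := by
  obtain ⟨Δ, hΔ, h⟩ := hf
  refine ⟨Δ.normalCore, inferInstance, fun g hg => ?_⟩
  rw [ev_sub, ← toM_mul, ← toM_mul, ← map_mul, ← map_mul]
  exact h _ (Δ.normalCore_le (Δ.normalCore_normal.conj_mem g hg s))

theorem Lg_conj (hCJ : CJ) (s : Γ) {y : Module.End K (ι → K)} (hy : y ∈ Lg R) :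
    R s * y * R s⁻¹ ∈ Lg R := by
  intro f hf
  obtain ⟨h1, h2⟩ := hCJ K ι (toM (R s)) (toM (R s⁻¹)) (toM y) (Rmul_inv s) (Rinv_mul s) f
  have h3 := (hCJ K ι (toM (R s)) (toM (R s⁻¹)) (toM y) (Rmul_inv s) (Rinv_mul s)
    (D (toM (R s * y * R s⁻¹)) f)).2
  rw [toM_mul, toM_mul] at h3 ⊢
  rw [← h3, ← h1]
  have h4 := sub_conj_mem s⁻¹ (hy _ (sub_conj_mem s hf))
  rw [inv_inv] at h4
  exact h4

/-- The identity component contains products. -/
theorem sub_mem_of_InZ {x : Module.End K (ι → K)} (hx : InZ R x) {f : MvPolynomial (ι × ι) K}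
    (hf : f ∈ I0 R) : sub 1 (toM x) f ∈ I0 R := by
  obtain ⟨Δ, hΔ, h⟩ := hf
  refine ⟨Δ, hΔ, fun g hg => ?_⟩
  have h1 : sub (toM (R g)) 1 f ∈ I0 R := by
    refine ⟨Δ, hΔ, fun g' hg' => ?_⟩
    rw [ev_sub, mul_one, ← toM_mul, ← map_mul]
    exact h _ (Δ.mul_mem hg hg')
  have h2 := hx _ h1
  rw [ev_sub, mul_one] at h2
  rw [ev_sub, one_mul]
  exact h2

theorem InZ_of_sub {x : Module.End K (ι → K)} (hx : ∀ f ∈ I0 R, sub 1 (toM x) f ∈ I0 R) :
    InZ R x := by
  intro f hf
  obtain ⟨Δ, hΔ, h⟩ := hx f hf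
  have h1 := h 1 Δ.one_mem
  rw [map_one, toM_one, ev_sub, one_mul, one_mul] at h1
  exact h1

theorem InZ_iff {x : Module.End K (ι → K)} :
    InZ R x ↔ ∀ f ∈ I0 R, sub 1 (toM x) f ∈ I0 R :=
  ⟨fun h _ hf => sub_mem_of_InZ h hf, InZ_of_sub⟩

theorem InZ_one [Infinite K] : InZ R 1 := by
  rw [InZ_iff]
  intro f hf
  rwa [toM_one, sub_one]

theorem InZ_mul [Infinite K] {x y : Module.End K (ι → K)} (hx : InZ R x) (hy : InZ R y) :
    InZ R (x * y) := by
  rw [InZ_iff] at hx hy ⊢
  intro f hf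
  have h1 := hx _ (hy f hf)
  rw [sub_sub, mul_one] at h1
  rwa [toM_mul]

/-- The submonoid of the operators in the identity component. -/
def Zm [Infinite K] (R : Representation K Γ (ι → K)) : Submonoid (Module.End K (ι → K)) where
  carrier := {x | InZ R x}
  one_mem' := InZ_one
  mul_mem' := InZ_mul

theorem InZ_unip [CharZero K] (hUN : UN) {n : Module.End K (ι → K)} (hn : n ∈ Lg R)
    (hnn : n * n = 0) (t : K) : InZ R (1 + t • n) := by
  rw [InZ_iff]
  intro f hf
  have h1 : toM n * toM n = 0 := by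
    rw [← toM_mul, hnn]
    exact map_zero _
  have h2 := (hUN K ι (toM n) h1 (I0 R)).1 hn f hf t
  rwa [show toM (1 + t • n) = 1 + t • toM n by
    rw [show toM (1 + t • n) = toM 1 + toM (t • n) from map_add _ _ _, toM_one,
      show toM (t • n) = t • toM n from map_smul _ _ _]]

theorem Lg_idem [CharZero K] (hID : ID) {p : Module.End K (ι → K)} (hp : p * p = p)
    (h : ∀ c : K, c ≠ 0 → InZ R (1 - p + c • p)) : p ∈ Lg R := by
  intro f hf
  have h1 : toM p * toM p = toM p := by
    rw [← toM_mul, hp]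
  refine hID K ι (toM p) h1 (I0 R) f ?_
  refine Set.Infinite.mono (s := {c : K | c ≠ 0}) ?_ ?_
  · intro c hc
    have h2 := (InZ_iff.1 (h c hc)) f hf
    rwa [show toM (1 - p + c • p) = 1 - toM p + c • toM p by
      rw [show toM (1 - p + c • p) = toM (1 - p) + toM (c • p) from map_add _ _ _,
        show toM (1 - p) = toM 1 - toM p from map_sub _ _ _, toM_one,
        show toM (c • p) = c • toM p from map_smul _ _ _]] at h2
  · exact (Set.finite_singleton (0 : K)).infinite_compl

theorem unip_pow (γ : Γ) (h2 : (R γ - 1) * (R γ - 1) = 0) (k : ℕ) :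
    R (γ ^ k) = 1 + (k : K) • (R γ - 1) := by
  induction k with
  | zero => rw [pow_zero, map_one, Nat.cast_zero, zero_smul, add_zero]
  | succ k ih =>
    rw [pow_succ, map_mul, ih]
    have h3 : R γ = 1 + (R γ - 1) := by abel
    have h4 : (1 + (k : K) • (R γ - 1)) * (1 + (R γ - 1)) =
        1 + ((k : K) + 1) • (R γ - 1) + (k : K) • ((R γ - 1) * (R γ - 1)) := by
      rw [add_smul, one_smul]
      simp only [mul_add, add_mul, one_mul, mul_one, smul_mul_assoc]
      abel
    rw [Nat.cast_add, Nat.cast_one]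
    conv_lhs => rw [h3]
    rw [show (1 + (k : K) • (1 + (R γ - 1) - 1)) * (1 + (R γ - 1)) =
      (1 + (k : K) • (R γ - 1)) * (1 + (R γ - 1)) by congr 2; abel_nf, h4, h2, smul_zero, add_zero]

theorem Lg_unip [CharZero K] (hUN : UN) (γ : Γ) (h2 : (R γ - 1) * (R γ - 1) = 0) :
    R γ - 1 ∈ Lg R := by
  rintro f ⟨Δ, hΔ, hf⟩
  have h1 : toM (R γ - 1) * toM (R γ - 1) = 0 := by
    rw [← toM_mul, h2]
    exact map_zero _
  refine (hUN K ι (toM (R γ - 1)) h1 (I0 R)).2 f ?_
  have _ : Δ.normalCore.FiniteIndex := inferInstance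
  have hM0 : Δ.normalCore.index ≠ 0 := Subgroup.FiniteIndex.index_ne_zero
  have hM : γ ^ Δ.normalCore.index ∈ Δ := Δ.normalCore_le (Δ.normalCore.pow_index_mem γ)
  set M := Δ.normalCore.index with hMdef
  refine Set.Infinite.mono (s := Set.range fun k : ℕ => ((M * k : ℕ) : K)) ?_ ?_
  · rintro _ ⟨k, rfl⟩
    refine ⟨Δ, hΔ, fun g hg => ?_⟩
    rw [ev_sub, one_mul]
    have h3 : toM (R (γ ^ (M * k))) = 1 + ((M * k : ℕ) : K) • toM (R γ - 1) := by
      rw [unip_pow γ h2, show toM (1 + ((M * k : ℕ) : K) • (R γ - 1)) =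
        toM 1 + toM (((M * k : ℕ) : K) • (R γ - 1)) from map_add _ _ _, toM_one,
        show toM (((M * k : ℕ) : K) • (R γ - 1)) = ((M * k : ℕ) : K) • toM (R γ - 1) from
          map_smul _ _ _]
    rw [← h3, ← toM_mul, ← map_mul]
    refine hf _ (Δ.mul_mem hg ?_)
    rw [pow_mul]
    exact Δ.pow_mem hM k
  · refine Set.infinite_range_of_injective ?_
    intro a b hab
    have h3 : M * a = M * b := Nat.cast_injective hab
    exact Nat.eq_of_mul_eq_mul_left (Nat.pos_of_ne_zero hM0) h3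

end lie

end

end Pool.Agent.W528.ZC
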