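import Mathlib
import Pool.Agent.W528.ZC.Lie

/-!
# Linear and quadratic relations
-/

set_option linter.unusedSectionVars false

namespace Pool.Agent.W528.ZC

open Module MvPolynomial

noncomputable section

variable {K : Type} [Field K] {ι : Type} [Fintype ι] [DecidableEq ι]

theorem ev_D_X (x y : Matrix ι ι K) (p : ι × ι) : ev x (D y (X p)) = (x * y) p.1 p.2 := by
  rw [D_X, map_sum, Matrix.mul_apply]
  refine Finset.sum_congr rfl fun j _ => ?_
  rw [map_mul, ev_C, ev_X]
  ring

theorem ev_D_C (x y : Matrix ι ι K) (c : K) : ev x (D y (C c)) = 0 := by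
  have h : D y (C c) = 0 := by
    unfold D
    exact (mkDerivation K _).map_algebraMap c
  rw [h, map_zero]

theorem ev_D_mul (x y : Matrix ι ι K) (f g : MvPolynomial (ι × ι) K) :
    ev x (D y (f * g)) = ev x f * ev x (D y g) + ev x g * ev x (D y f) := by
  rw [Derivation.leibniz, map_add, smul_eq_mul, smul_eq_mul, map_mul, map_mul]

theorem ev_subX (x a b : Matrix ι ι K) (p : ι × ι) :
    ev x (sub a b (X p)) = (a * x * b) p.1 p.2 := by
  rw [ev_sub, ev_X]

theorem ev_D_subX (x a b y : Matrix ι ι K) (p : ι × ι) :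
    ev x (D y (sub a b (X p))) = (a * (x * y) * b) p.1 p.2 := by
  rw [sub_X, Matrix.mul_apply]
  simp only [map_sum, ev_D_mul, ev_D_X, ev_D_C, mul_zero, add_zero, ev_C]
  rw [Finset.sum_comm]
  refine Finset.sum_congr rfl fun j _ => ?_
  rw [Matrix.mul_apply (M := a), Finset.sum_mul]
  refine Finset.sum_congr rfl fun i _ => ?_
  ring

variable {Γ : Type} [Group Γ] {R : Representation K Γ (ι → K)}

/-- The Lie algebra commutes with the operators that commute with a subgroup of finite index. -/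
theorem Lg_comm {y P : Module.End K (ι → K)} (hy : y ∈ Lg R)
    (hP : ∃ Δ : Subgroup Γ, Δ.FiniteIndex ∧ ∀ g ∈ Δ, P * R g = R g * P) : y * P = P * y := by
  obtain ⟨Δ, hΔ, h⟩ := hP
  apply LinearMap.toMatrix'.injective
  change toM (y * P) = toM (P * y)
  rw [toM_mul, toM_mul]
  ext i j
  have h1 : sub (toM P) 1 (X (i, j)) - sub 1 (toM P) (X (i, j)) ∈ I0 R := by
    refine ⟨Δ, hΔ, fun g hg => ?_⟩
    rw [map_sub, ev_subX, ev_subX, mul_one, one_mul, ← toM_mul, ← toM_mul, h g hg, sub_self]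
  obtain ⟨Δ', hΔ', h2⟩ := hy _ h1
  have h3 := h2 1 Δ'.one_mem
  rw [map_one, toM_one, map_sub, map_sub, ev_D_subX, ev_D_subX, mul_one, one_mul, one_mul] at h3
  exact (sub_eq_zero.1 h3).symm

theorem InZ_comm {x P : Module.End K (ι → K)} (hx : InZ R x)
    (hP : ∃ Δ : Subgroup Γ, Δ.FiniteIndex ∧ ∀ g ∈ Δ, P * R g = R g * P) : x * P = P * x := by
  obtain ⟨Δ, hΔ, h⟩ := hP
  apply LinearMap.toMatrix'.injective
  change toM (x * P) = toM (P * x)
  rw [toM_mul, toM_mul]
  ext i j
  have h1 : sub (toM P) 1 (X (i, j)) - sub 1 (toM P) (X (i, j)) ∈ I0 R := by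
    refine ⟨Δ, hΔ, fun g hg => ?_⟩
    rw [map_sub, ev_subX, ev_subX, mul_one, one_mul, ← toM_mul, ← toM_mul, h g hg, sub_self]
  have h3 := hx _ h1
  rw [map_sub, ev_subX, ev_subX, mul_one, one_mul] at h3
  exact (sub_eq_zero.1 h3).symm

section form

variable (ω : (ι → K) →ₗ[K] (ι → K) →ₗ[K] K)

/-- The quadratic polynomial `ω (x e_i) (x e_j)`. -/
def qf (i j : ι) : MvPolynomial (ι × ι) K :=
  ∑ k, ∑ l, C (ω (Pi.single k 1) (Pi.single l 1)) * (X (k, i) * X (l, j))

theorem col (x : Module.End K (ι → K)) (i : ι) :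
    x (Pi.single i 1) = ∑ k, toM x k i • (Pi.single k 1 : ι → K) := by
  funext j
  rw [Finset.sum_apply, Finset.sum_eq_single j]
  · rw [Pi.smul_apply, Pi.single_eq_same, smul_eq_mul, mul_one]
    rw [toM, LinearMap.toMatrix'_apply]
  · intro k _ hk
    rw [Pi.smul_apply, Pi.single_eq_of_ne hk.symm, smul_zero]
  · intro h
    exact absurd (Finset.mem_univ j) h

theorem form_sum (u v : ι → K) (a b : ι → K) (ha : u = ∑ k, a k • (Pi.single k 1 : ι → K))
    (hb : v = ∑ l, b l • (Pi.single l 1 : ι → K)) :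
    ω u v = ∑ k, ∑ l, ω (Pi.single k 1) (Pi.single l 1) * (a k * b l) := by
  rw [ha, map_sum, LinearMap.sum_apply]
  refine Finset.sum_congr rfl fun k _ => ?_
  rw [hb, map_smul, LinearMap.smul_apply, map_sum, Finset.smul_sum]
  refine Finset.sum_congr rfl fun l _ => ?_
  rw [map_smul, smul_eq_mul, smul_eq_mul]
  ring

theorem ev_qf (x : Module.End K (ι → K)) (i j : ι) :
    ev (toM x) (qf ω i j) = ω (x (Pi.single i 1)) (x (Pi.single j 1)) := by
  rw [form_sum ω _ _ (fun k => toM x k i) (fun l => toM x l j) (col x i) (col x j)]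
  unfold qf
  simp only [map_sum, map_mul, ev_C, ev_X]

theorem ev_D_qf (y : Module.End K (ι → K)) (i j : ι) :
    ev (1 : Matrix ι ι K) (D (toM y) (qf ω i j)) =
      ω (y (Pi.single i 1)) (Pi.single j 1) + ω (Pi.single i 1) (y (Pi.single j 1)) := by
  have h1 := form_sum ω (y (Pi.single i 1)) (Pi.single j 1) (fun k => toM y k i)
    (fun l => (1 : Matrix ι ι K) l j) (col y i) (by
      have h := col (1 : Module.End K (ι → K)) j
      rw [toM_one] at h
      exact h)
  have h2 := form_sum ω (Pi.single i 1) (y (Pi.single j 1)) (fun k => (1 : Matrix ι ι K) k i)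
    (fun l => toM y l j) (by
      have h := col (1 : Module.End K (ι → K)) i
      rw [toM_one] at h
      exact h) (col y j)
  rw [h1, h2, ← Finset.sum_add_distrib]
  unfold qf
  simp only [map_sum, ev_D_mul, ev_D_X, ev_D_C, mul_zero, add_zero, ev_C, ev_X, one_mul]
  refine Finset.sum_congr rfl fun k _ => ?_
  rw [← Finset.sum_add_distrib]
  refine Finset.sum_congr rfl fun l _ => ?_
  ring

theorem form_ext {B : (ι → K) →ₗ[K] (ι → K) →ₗ[K] K}
    (h : ∀ i j, B (Pi.single i 1) (Pi.single j 1) = 0) : B = 0 := by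
  refine LinearMap.pi_ext' fun i => LinearMap.ext_ring (LinearMap.pi_ext' fun j =>
    LinearMap.ext_ring ?_)
  exact h i j

variable {χ : Γ → K} (hω : ∀ s u v, ω (R s u) (R s v) = χ s * ω u v)

include hω in
/-- The Lie algebra consists of infinitesimal similitudes. -/
theorem Lg_form (h0 : ω ≠ 0) {y : Module.End K (ι → K)} (hy : y ∈ Lg R) :
    ∃ c : K, ∀ u v, ω (y u) v + ω u (y v) = c * ω u v := by
  obtain ⟨a, b, hab⟩ : ∃ a b, ω (Pi.single a 1) (Pi.single b 1) ≠ 0 := by
    by_contra hcon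
    push Not at hcon
    exact h0 (form_ext hcon)
  let w : ι → ι → K := fun i j => ω (Pi.single i 1) (Pi.single j 1)
  let d : ι → ι → K := fun i j => ω (y (Pi.single i 1)) (Pi.single j 1) +
    ω (Pi.single i 1) (y (Pi.single j 1))
  have key : ∀ i j, w a b * d i j = w i j * d a b := by
    intro i j
    have h1 : C (w a b) * qf ω i j - C (w i j) * qf ω a b ∈ I0 R := by
      refine ⟨⊤, inferInstance, fun g _ => ?_⟩
      rw [map_sub, map_mul, map_mul, ev_C, ev_C, ev_qf, ev_qf, hω, hω]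
      ring
    obtain ⟨Δ', hΔ', h2⟩ := hy _ h1
    have h3 := h2 1 Δ'.one_mem
    rw [map_one, toM_one, map_sub, map_sub, ev_D_mul, ev_D_mul, ev_D_C, ev_D_C, mul_zero,
      mul_zero, add_zero, add_zero, ev_C, ev_C, ev_D_qf, ev_D_qf] at h3
    exact sub_eq_zero.1 h3
  refine ⟨d a b / w a b, ?_⟩
  have h4 : ω.comp y + (ω.compl₂ y) - (d a b / w a b) • ω = 0 := by
    apply form_ext
    intro i j
    have h5 := key i j
    have h6 : w a b ≠ 0 := hab
    rw [LinearMap.sub_apply, LinearMap.sub_apply, LinearMap.add_apply, LinearMap.add_apply,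
      LinearMap.comp_apply, LinearMap.compl₂_apply, LinearMap.smul_apply, LinearMap.smul_apply,
      smul_eq_mul]
    change d i j - d a b / w a b * w i j = 0
    field_simp
    linear_combination h5
  intro u v
  have h5 := congrArg (fun B : (ι → K) →ₗ[K] (ι → K) →ₗ[K] K => B u v) h4
  rw [LinearMap.sub_apply, LinearMap.sub_apply, LinearMap.add_apply, LinearMap.add_apply,
    LinearMap.comp_apply, LinearMap.compl₂_apply, LinearMap.smul_apply, LinearMap.smul_apply,
    smul_eq_mul, LinearMap.zero_apply, LinearMap.zero_apply, sub_eq_zero] at h5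
  exact h5

end form

end

end Pool.Agent.W528.ZC
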