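import Mathlib
import Pool.Agent.W528.ZC.Lin
import Pool.Agent.W528.Odd.Final2

/-!
# The Lie algebra of the Zariski closure on the strongly irreducible subspaces
-/

set_option linter.unusedSectionVars false
set_option linter.deprecated false

namespace Pool.Agent.W528.ZC

open Module MvPolynomial Pool.Agent.H204R3.SP Pool.Agent.H204R3.GP Pool.Agent.W522.U
open Pool.Agent.W528.Tor (AltDual)
open Pool.Agent.W529.Ta
open Pool.Agent.W528.Odd (rk rk_res sq_res exists_rank_one_odd all_of_rank_one sIrr_res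
  nil_of_all rk_eq_zero)

noncomputable section

variable {K : Type} [Field K] [CharZero K] {ι : Type} [Fintype ι] [DecidableEq ι]
  {Γ : Type} [Group Γ] {R : Representation K Γ (ι → K)}
  (ω : (ι → K) →ₗ[K] (ι → K) →ₗ[K] K)

/-- The symplectic operators that are, up to scalars, in the Lie algebra of the closure. -/
def HZ (R : Representation K Γ (ι → K)) : Submodule K (Module.End K (ι → K)) where
  carrier := {y | (∃ c : K, y + c • 1 ∈ Lg R) ∧ ∀ u v, ω (y u) v + ω u (y v) = 0}
  zero_mem' := ⟨⟨0, by rw [zero_smul, add_zero]; exact Submodule.zero_mem _⟩, fun u v => by simp⟩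
  add_mem' := by
    rintro y y' ⟨⟨c, hc⟩, h⟩ ⟨⟨c', hc'⟩, h'⟩
    refine ⟨⟨c + c', ?_⟩, fun u v => ?_⟩
    · have h1 := Submodule.add_mem _ hc hc'
      convert h1 using 1
      rw [add_smul]
      abel
    · rw [LinearMap.add_apply, LinearMap.add_apply, map_add, map_add, LinearMap.add_apply]
      linear_combination h u v + h' u v
  smul_mem' := by
    rintro a y ⟨⟨c, hc⟩, h⟩
    refine ⟨⟨a * c, ?_⟩, fun u v => ?_⟩
    · have h1 := Submodule.smul_mem _ a hc
      convert h1 using 1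
      rw [smul_add, smul_smul]
    · rw [LinearMap.smul_apply, LinearMap.smul_apply, map_smul, map_smul, LinearMap.smul_apply,
        smul_eq_mul, smul_eq_mul]
      linear_combination a * h u v

variable {ω}

/-- The operators that commute with a subgroup of finite index. -/
def CR (R : Representation K Γ (ι → K)) (P : Module.End K (ι → K)) : Prop :=
  ∃ Δ : Subgroup Γ, Δ.FiniteIndex ∧ ∀ g ∈ Δ, P * R g = R g * P

theorem HZ_comm {y P : Module.End K (ι → K)} (hy : y ∈ HZ ω R) (hP : CR R P) :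
    y * P = P * y := by
  obtain ⟨⟨c, hc⟩, -⟩ := hy
  have h1 := Lg_comm hc hP
  rw [add_mul, mul_add, smul_mul_assoc, mul_smul_comm, one_mul, mul_one] at h1
  exact add_right_cancel h1

theorem HZ_br_Lg (hBR : BR) {x y : Module.End K (ι → K)} (hx : x ∈ HZ ω R) (hy : y ∈ HZ ω R) :
    x * y - y * x ∈ Lg R := by
  obtain ⟨⟨a, ha⟩, -⟩ := hx
  obtain ⟨⟨b, hb⟩, -⟩ := hy
  have h1 := Lg_br hBR ha hb
  have h2 : (x + a • 1) * (y + b • 1) - (y + b • 1) * (x + a • 1) = x * y - y * x := by
    simp only [add_mul, mul_add, smul_mul_assoc, mul_smul_comm, one_mul, mul_one, smul_add,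
      smul_smul, mul_comm b a]
    abel
  rwa [h2] at h1

theorem HZ_br (hBR : BR) {x y : Module.End K (ι → K)} (hx : x ∈ HZ ω R) (hy : y ∈ HZ ω R) :
    x * y - y * x ∈ HZ ω R := by
  refine ⟨⟨0, by rw [zero_smul, add_zero]; exact HZ_br_Lg hBR hx hy⟩, fun u v => ?_⟩
  have h1 := hx.2
  have h2 := hy.2
  have h3 := h1 (y u) v
  have h4 := h2 u (x v)
  have h5 := h2 (x u) v
  have h6 := h1 u (y v)
  rw [LinearMap.sub_apply, LinearMap.sub_apply, map_sub, map_sub, LinearMap.sub_apply,
    Module.End.mul_apply, Module.End.mul_apply, Module.End.mul_apply, Module.End.mul_apply]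
  linear_combination h3 - h4 - h5 + h6

variable {χ : Γ →* K}

theorem HZ_conj (hCJ : CJ) (hω : ∀ s u v, ω (R s u) (R s v) = χ s * ω u v) (s : Γ)
    {y : Module.End K (ι → K)} (hy : y ∈ HZ ω R) : R s * y * R s⁻¹ ∈ HZ ω R := by
  obtain ⟨⟨c, hc⟩, h⟩ := hy
  have hs : R s * R s⁻¹ = 1 := by rw [← map_mul, mul_inv_cancel, map_one]
  refine ⟨⟨c, ?_⟩, fun u v => ?_⟩
  · have h1 := Lg_conj hCJ s hc
    have h2 : R s * (y + c • 1) * R s⁻¹ = R s * y * R s⁻¹ + c • 1 := by
      rw [mul_add, add_mul, mul_smul_comm, mul_one, smul_mul_assoc, hs]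
    rwa [h2] at h1
  · have h3 : ∀ w, R s (R s⁻¹ w) = w := fun w => by
      rw [← Module.End.mul_apply, hs]
      rfl
    have h1 := hω s (y (R s⁻¹ u)) (R s⁻¹ v)
    have h2 := hω s (R s⁻¹ u) (y (R s⁻¹ v))
    rw [h3] at h1 h2
    change ω (R s (y (R s⁻¹ u))) v + ω u (R s (y (R s⁻¹ v))) = 0
    rw [h1, h2, ← mul_add, h, mul_zero]

/-- The weak Hodge cocharacters `c ↦ 1 - p + c p` of the connected monodromy group. -/
def WHodge (ω : (ι → K) →ₗ[K] (ι → K) →ₗ[K] K) (R : Representation K Γ (ι → K))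
    (p : Module.End K (ι → K)) : Prop :=
  p * p = p ∧ (∀ u v, ω (p u) v + ω u (p v) = ω u v) ∧ ∀ c : K, c ≠ 0 → InZ R (1 - p + c • p)

/-- The theorem of Pink: the connected monodromy group is generated by the weak Hodge
cocharacters. -/
def PinkGen (ω : (ι → K) →ₗ[K] (ι → K) →ₗ[K] K) (R : Representation K Γ (ι → K)) : Prop :=
  ∀ f : MvPolynomial (ι × ι) K, (∀ x ∈ Submonoid.closure {x : Module.End K (ι → K) |
    ∃ (p : Module.End K (ι → K)) (c : K), WHodge ω R p ∧ c ≠ 0 ∧ x = 1 - p + c • p},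
    ev (toM x) f = 0) → f ∈ I0 R

theorem HZ_hodge (hID : ID) {p : Module.End K (ι → K)} (hp : WHodge ω R p) :
    p - (1 / 2 : K) • 1 ∈ HZ ω R ∧
      (p - (1 / 2 : K) • 1) * (p - (1 / 2 : K) • 1) = (1 / 4 : K) • 1 := by
  obtain ⟨h1, h2, h3⟩ := hp
  refine ⟨⟨⟨1 / 2, ?_⟩, fun u v => ?_⟩, ?_⟩
  · rw [sub_add_cancel]
    exact Lg_idem hID h1 h3
  · have h4 := h2 u v
    rw [LinearMap.sub_apply, LinearMap.sub_apply, map_sub, map_sub, LinearMap.sub_apply,
      LinearMap.smul_apply, LinearMap.smul_apply, map_smul, map_smul, LinearMap.smul_apply,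
      Module.End.one_apply, Module.End.one_apply, smul_eq_mul]
    linear_combination h4
  · have h4 : (p - (1 / 2 : K) • 1) * (p - (1 / 2 : K) • 1) = p * p - p + (1 / 4 : K) • 1 := by
      simp only [sub_mul, mul_sub, smul_mul_assoc, mul_smul_comm, one_mul, mul_one]
      module
    rw [h4, h1, sub_self, zero_add]

theorem HZ_unip (hUN : UN) (hnd : ∀ u, (∀ v, ω u v = 0) → u = 0)
    (hω : ∀ s u v, ω (R s u) (R s v) = χ s * ω u v) {γ : Γ}
    (h2 : (R γ - 1) * (R γ - 1) = 0) {u : ι → K} (hu : (R γ - 1) u ≠ 0) :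
    R γ - 1 ∈ HZ ω R := by
  have hχ := unip_chi ω hnd hω γ h2 hu
  refine ⟨⟨0, by rw [zero_smul, add_zero]; exact Lg_unip hUN γ h2⟩, fun u v => ?_⟩
  exact unip_skew (U := ⊤) (U' := ⊤) (Δ := ⊤) inferInstance ω (fun g _ u _ v _ => hω g u v) γ h2
    hχ u trivial v trivial

/-- A subspace that is stable under the weak Hodge cocharacters is stable under a subgroup of
finite index. -/
theorem pot_of_hodge (hP : PinkGen ω R) (W : Submodule K (ι → K))
    (hW : ∀ p, WHodge ω R p → ∀ u ∈ W, p u ∈ W) : Pot R W := by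
  classical
  have hst : ∀ x ∈ Submonoid.closure {x : Module.End K (ι → K) |
      ∃ (p : Module.End K (ι → K)) (c : K), WHodge ω R p ∧ c ≠ 0 ∧ x = 1 - p + c • p},
      ∀ u ∈ W, x u ∈ W := by
    intro x hx
    induction hx using Submonoid.closure_induction with
    | mem x hx =>
      obtain ⟨p, c, hp, -, rfl⟩ := hx
      intro u hu
      rw [LinearMap.add_apply, LinearMap.sub_apply, LinearMap.smul_apply, Module.End.one_apply]
      exact W.add_mem (W.sub_mem hu (hW p hp u hu)) (W.smul_mem _ (hW p hp u hu))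
    | one => exact fun u hu => hu
    | mul x y _ _ hx hy => exact fun u hu => hx _ (hy _ hu)
  have key : ∀ (w : W) (φ : W.dualAnnihilator), ∃ Δ : Subgroup Γ, Δ.FiniteIndex ∧
      ∀ g ∈ Δ, (φ : Dual K (ι → K)) (R g w) = 0 := by
    intro w φ
    have hval : ∀ x : Module.End K (ι → K), ev (toM x)
        (∑ i, ∑ j, C ((φ : Dual K (ι → K)) (Pi.single i 1) * (w : ι → K) j) * X (i, j)) =
        (φ : Dual K (ι → K)) (x w) := by
      intro x
      have h1 : (w : ι → K) = ∑ j, (w : ι → K) j • (Pi.single j 1 : ι → K) := by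
        funext k
        rw [Finset.sum_apply, Finset.sum_eq_single k]
        · rw [Pi.smul_apply, Pi.single_eq_same, smul_eq_mul, mul_one]
        · intro j _ hj
          rw [Pi.smul_apply, Pi.single_eq_of_ne hj.symm, smul_zero]
        · intro h
          exact absurd (Finset.mem_univ k) h
      conv_rhs => rw [h1]
      rw [map_sum, map_sum]
      simp only [map_sum, map_mul, ev_C, ev_X]
      rw [Finset.sum_comm]
      refine Finset.sum_congr rfl fun j _ => ?_
      rw [map_smul, map_smul, col, map_sum, Finset.smul_sum]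
      refine Finset.sum_congr rfl fun i _ => ?_
      rw [map_smul, smul_eq_mul, smul_eq_mul]
      ring
    obtain ⟨Δ, hΔ, h⟩ := hP _ (fun x hx => by
      rw [hval x]
      exact (Submodule.mem_dualAnnihilator _).1 φ.2 _ (hst x hx _ w.2))
    exact ⟨Δ, hΔ, fun g hg => by rw [← hval]; exact h g hg⟩
  obtain ⟨S, hS⟩ := IsNoetherian.noetherian W
  obtain ⟨S', hS'⟩ := IsNoetherian.noetherian W.dualAnnihilator
  have hSW : ∀ w ∈ S, w ∈ W := fun w hw => by
    rw [← hS]
    exact Submodule.subset_span hw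
  have hSW' : ∀ φ ∈ S', φ ∈ W.dualAnnihilator := fun w hw => by
    rw [← hS']
    exact Submodule.subset_span hw
  choose D hD hDφ using fun (i : S) (j : S') => key ⟨i.1, hSW _ i.2⟩ ⟨j.1, hSW' _ j.2⟩
  refine ⟨⨅ i, ⨅ j, D i j, Subgroup.finiteIndex_iInf fun i => Subgroup.finiteIndex_iInf fun j =>
    hD i j, fun g hg u hu => ?_⟩
  have hg' : ∀ i j, g ∈ D i j := fun i j => Subgroup.mem_iInf.1 (Subgroup.mem_iInf.1 hg i) j
  rw [← Subspace.dualAnnihilator_dualCoannihilator_eq (W := W), Submodule.mem_dualCoannihilator]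
  intro φ hφ
  rw [← hS] at hu
  rw [← hS'] at hφ
  induction hφ using Submodule.span_induction with
  | mem φ hφ =>
    induction hu using Submodule.span_induction with
    | mem u hu => exact hDφ ⟨u, hu⟩ ⟨φ, hφ⟩ g (hg' _ _)
    | zero => rw [map_zero, map_zero]
    | add u v _ _ h1 h2 => rw [map_add, map_add, h1, h2, add_zero]
    | smul c u _ h1 => rw [map_smul, map_smul, h1, smul_zero]
  | zero => rw [LinearMap.zero_apply]
  | add φ φ' _ _ h1 h2 => rw [LinearMap.add_apply, h1, h2, add_zero]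
  | smul c φ _ h1 => rw [LinearMap.smul_apply, h1, smul_zero]

end

end Pool.Agent.W528.ZC
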