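import Mathlib
import Pool.Agent.W528.ZC.Fam
import Pool.Agent.W528.Tor.Comp
import Pool.Agent.W522.U.A5

/-!
# The identity component of the Zariski closure contains the Lefschetz group
-/

set_option linter.unusedSectionVars false
set_option linter.deprecated false

namespace Pool.Agent.W528.ZC

open Module MvPolynomial Pool.Agent.H204R3.SP Pool.Agent.H204R3.GP Pool.Agent.W522.U
open Pool.Agent.W528.Tor (AltDual nil_of_small)
open Pool.Agent.W529.Ta
open Pool.Agent.W528.Odd (rk rk_res sq_res exists_rank_one_odd all_of_rank_one sIrr_res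
  nil_of_all rk_eq_zero)

noncomputable section

variable {K : Type} [Field K] [CharZero K] {ι : Type} [Fintype ι] [DecidableEq ι]
  {Γ : Type} [Group Γ] {R : Representation K Γ (ι → K)}
  {ω : (ι → K) →ₗ[K] (ι → K) →ₗ[K] K} {χ : Γ →* K}

/-- The pairing on a self-dual strongly irreducible subspace comes from the form and an operator
that commutes with a subgroup of finite index. -/
theorem exists_P (hss : HasProj R) (hnd : ∀ u, (∀ v, ω u v = 0) → u = 0)
    (hω : ∀ s u v, ω (R s u) (R s v) = χ s * ω u v) {U : Submodule K (ι → K)} (hU : SI R U)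
    (hA : AltDual R χ U) : ∃ P : Module.End K (ι → K), CR R P ∧ (∀ u ∈ U, ω (P u) u = 0) ∧
      ∀ u ∈ U, (∀ v ∈ U, ω (P u) v = 0) → u = 0 := by
  obtain ⟨Δ0, hΔ0, hU0⟩ := hU.2.1
  obtain ⟨q, hq1, hq2, hq3⟩ := hss Δ0 hΔ0 U hU0
  obtain ⟨Δ, hΔ, B, hB0, hBa, hB⟩ := hA
  have hinj : Function.Injective ω := by
    rw [injective_iff_map_eq_zero]
    intro u hu
    exact hnd u fun v => by rw [hu, LinearMap.zero_apply]
  have hbij : Function.Bijective ω := by
    refine ⟨hinj, (LinearMap.injective_iff_surjective_of_finrank_eq_finrank ?_).1 hinj⟩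
    exact (Subspace.dual_finrank_eq (K := K) (V := ι → K)).symm
  let e : (ι → K) ≃ₗ[K] Dual K (ι → K) := LinearEquiv.ofBijective ω hbij
  let P : Module.End K (ι → K) := e.symm.toLinearMap.comp (B.compl₁₂ q q)
  have hP : ∀ u v, ω (P u) v = B (q u) (q v) := by
    intro u v
    have h1 : e (P u) = B.compl₁₂ q q u := e.apply_symm_apply _
    exact congrArg (fun f : Dual K (ι → K) => f v) h1
  refine ⟨P, ⟨Δ ⊓ Δ0, inferInstance, fun g hg => ?_⟩, fun u hu => ?_, fun u hu h => ?_⟩
  · refine LinearMap.ext fun u => ?_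
    change P (R g u) = R g (P u)
    rw [← sub_eq_zero]
    apply hnd
    intro v
    have h3 : R g (R g⁻¹ v) = v := by
      rw [← Module.End.mul_apply, ← map_mul, mul_inv_cancel, map_one]
      rfl
    rw [map_sub, LinearMap.sub_apply, ← h3, hP, hω, hP, hq3 g hg.2, hq3 g hg.2,
      hB g hg.1 _ (hq1 _) _ (hq1 _), sub_self]
  · rw [hP, hq2 u hu]
    exact hBa u hu
  · refine du_left hU hU.2.1 hΔ hB0 hB u hu fun v hv => ?_
    have h1 := h v hv
    rwa [hP, hq2 u hu, hq2 v hv] at h1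

/-- Operators that commute with everything that commutes with a subgroup of finite index are
determined by their restrictions to the representatives. -/
theorem ext_reps (hss : HasProj R) {s : ℕ} (W : Fin s → Submodule K (ι → K))
    (hW : ∀ i, SI R (W i)) (hall : ∀ U, SI R U → ∃ i, Tw R (fun _ => 1) U (W i))
    {T : Module.End K (ι → K)} (hT : ∀ P, CR R P → T * P = P * T)
    (h0 : ∀ i, ∀ u ∈ W i, T u = 0) : T = 0 := by
  have h1 := decomp hss W hW hall
  have h2 : ∀ S ∈ Submodule.span K (FS R W), T * S = 0 := by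
    intro S hS
    induction hS using Submodule.span_induction with
    | mem S hS =>
      obtain ⟨i, p, j, Δ, hΔ, hp, hj, rfl⟩ := hS
      obtain ⟨Δ0, hΔ0, hU0⟩ := (hW i).2.1
      obtain ⟨q, hq1, hq2, hq3⟩ := hss Δ0 hΔ0 (W i) hU0
      let J : Module.End K (ι → K) := j.comp (q.codRestrict (W i) hq1)
      have hJ : CR R J := by
        refine ⟨Δ ⊓ Δ0, inferInstance, fun g hg => ?_⟩
        refine LinearMap.ext fun x => ?_
        change j (q.codRestrict (W i) hq1 (R g x)) = R g (j (q.codRestrict (W i) hq1 x))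
        exact hj g hg.1 _ _ (hq3 g hg.2 x)
      refine LinearMap.ext fun x => ?_
      change T (j (p x)) = 0
      have h3 : j (p x) = J (p x : ι → K) := by
        change j (p x) = j (q.codRestrict (W i) hq1 (p x : ι → K))
        congr 1
        exact Subtype.ext (hq2 _ (p x).2).symm
      rw [h3]
      have h4 := congrArg (fun f : Module.End K (ι → K) => f (p x : ι → K)) (hT J hJ)
      change T (J (p x : ι → K)) = J (T (p x : ι → K)) at h4
      rw [h4, h0 i _ (p x).2, map_zero]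
    | zero => rw [mul_zero]
    | add S S' _ _ h3 h4 => rw [mul_add, h3, h4, add_zero]
    | smul c S _ h3 => rw [mul_smul_comm, h3, smul_zero]
  have h3 := h2 1 h1
  rwa [mul_one] at h3

/-- The restrictions of the Lie algebra. -/
def HW (ω : (ι → K) →ₗ[K] (ι → K) →ₗ[K] K) (R : Representation K Γ (ι → K)) {s : ℕ}
    (W : Fin s → Submodule K (ι → K)) : Submodule K (∀ i, Module.End K (W i)) where
  carrier := {Y | ∃ y ∈ HZ ω R, ∀ i, ∀ u : W i, ((Y i u : W i) : ι → K) = y u}
  zero_mem' := ⟨0, Submodule.zero_mem _, fun i u => rfl⟩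
  add_mem' := by
    rintro Y Y' ⟨y, hy, h⟩ ⟨y', hy', h'⟩
    refine ⟨y + y', Submodule.add_mem _ hy hy', fun i u => ?_⟩
    rw [Pi.add_apply, LinearMap.add_apply, Submodule.coe_add, h, h', LinearMap.add_apply]
  smul_mem' := by
    rintro c Y ⟨y, hy, h⟩
    refine ⟨c • y, Submodule.smul_mem _ _ hy, fun i u => ?_⟩
    rw [Pi.smul_apply, LinearMap.smul_apply, Submodule.coe_smul, h, LinearMap.smul_apply]

theorem stable_of_comm (hss : HasProj R) {U : Submodule K (ι → K)} (hU : Pot R U)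
    {T : Module.End K (ι → K)} (hT : ∀ P, CR R P → T * P = P * T) : ∀ u ∈ U, T u ∈ U := by
  obtain ⟨Δ0, hΔ0, hU0⟩ := hU
  obtain ⟨q, hq1, hq2, hq3⟩ := hss Δ0 hΔ0 U hU0
  intro u hu
  have h1 := hT q ⟨Δ0, hΔ0, fun g hg => LinearMap.ext fun v => hq3 g hg v⟩
  have h2 := congrArg (fun f : Module.End K (ι → K) => f u) h1
  change T (q u) = q (T u) at h2
  rw [hq2 u hu] at h2
  rw [h2]
  exact hq1 _

theorem fam_of (hss : HasProj R) {s : ℕ} (W : Fin s → Submodule K (ι → K))
    (hW : ∀ i, SI R (W i)) {y : Module.End K (ι → K)} (hy : y ∈ HZ ω R) :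
    ∃ Y ∈ HW ω R W, ∀ i, ∀ u : W i, ((Y i u : W i) : ι → K) = y u := by
  have h := fun i => stable_of_comm hss (hW i).2.1 (fun P hP => HZ_comm hy hP)
  exact ⟨fun i => y.restrict (h i), ⟨y, hy, fun i u => rfl⟩, fun i u => rfl⟩

section fam

variable {s : ℕ} (W : Fin s → Submodule K (ι → K)) (Δ : Subgroup Γ)
  (hWΔ : ∀ i, ∀ g ∈ Δ, ∀ u ∈ W i, R g u ∈ W i)

theorem lieFam_HW (hBR : BR) (hCJ : CJ) (hω : ∀ s u v, ω (R s u) (R s v) = χ s * ω u v) :
    LieFam (fun i => resR R Δ (W i) (hWΔ i)) (HW ω R W) where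
  br := by
    rintro Y ⟨y, hy, h⟩ Y' ⟨y', hy', h'⟩
    refine ⟨_, HZ_br hBR hy hy', fun i u => ?_⟩
    change ((Y i (Y' i u) - Y' i (Y i u) : W i) : ι → K) = y (y' u) - y' (y u)
    rw [Submodule.coe_sub, h, h', h', h]
  conj := by
    rintro g Y ⟨y, hy, h⟩
    refine ⟨_, HZ_conj hCJ hω g.1 hy, fun i u => ?_⟩
    change R g.1 ((Y i (resR R Δ (W i) (hWΔ i) g⁻¹ u) : W i) : ι → K) = R g.1 (y (R g.1⁻¹ u))
    rw [h]
    rfl

end fam

end

end Pool.Agent.W528.ZC
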