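import Mathlib
import Pool.Agent.W528.ZC.Main
import Pool.Agent.W528.ZC.All

/-!
# The identity component of the Zariski closure contains the symplectic groups
-/

set_option linter.unusedSectionVars false
set_option linter.deprecated false

namespace Pool.Agent.W528.ZC

open Module MvPolynomial Pool.Agent.H204R3.SP Pool.Agent.H204R3.GP Pool.Agent.W522.U
open Pool.Agent.W528.Tor (AltDual nil_of_small)
open Pool.Agent.W529.Ta
open Pool.Agent.W528.Odd (rk rk_res sq_res exists_rank_one_odd all_of_rank_one sIrr_res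
  nil_of_all rk_eq_zero)

noncomputable section

variable {K : Type} [Field K] [CharZero K] {ι : Type} [Fintype ι] [DecidableEq ι]
  {Γ : Type} [Group Γ] {R : Representation K Γ (ι → K)}
  {ω : (ι → K) →ₗ[K] (ι → K) →ₗ[K] K} {χ : Γ →* K}

/-- Every strongly irreducible subspace is self-dual with an alternating pairing, and there is an
element with `(γ - 1) ^ 2 = 0` whose rank on the subspace is one, two or odd. -/
def OddOrSmall (R : Representation K Γ (ι → K)) (χ : Γ →* K) : Prop :=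
  ∀ U, SI R U → AltDual R χ U ∧ ∃ γ : Γ, (R γ - 1) * (R γ - 1) = 0 ∧
    (finrank K (U.map (R γ - 1)) = 2 ∨ Odd (finrank K (U.map (R γ - 1))))

/-- The form on a strongly irreducible subspace. -/
def Bf (ω : (ι → K) →ₗ[K] (ι → K) →ₗ[K] K) (P : Module.End K (ι → K))
    (U : Submodule K (ι → K)) : U →ₗ[K] U →ₗ[K] K :=
  (ω.comp P).compl₁₂ U.subtype U.subtype

theorem Bf_apply (P : Module.End K (ι → K)) (U : Submodule K (ι → K)) (u v : U) :
    Bf ω P U u v = ω (P u) v := rfl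

section fam

variable (hss : HasProj R) (hnd : ∀ u, (∀ v, ω u v = 0) → u = 0)
  (hω : ∀ s u v, ω (R s u) (R s v) = χ s * ω u v) (hpink : PinkGen ω R)
  (hos : OddOrSmall R χ)
  {s : ℕ} (W : Fin s → Submodule K (ι → K)) (hW : ∀ i, SI R (W i))
  (hWW : ∀ i j, Tw R (fun _ => 1) (W i) (W j) → i = j)
  (P : Fin s → Module.End K (ι → K)) (hP : ∀ i, CR R (P i))
  (hPa : ∀ i, ∀ u ∈ W i, ω (P i u) u = 0)
  (hPn : ∀ i, ∀ u ∈ W i, (∀ v ∈ W i, ω (P i u) v = 0) → u = 0)
  (Δ : Subgroup Γ) (hΔ : Δ.FiniteIndex)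
  (hWΔ : ∀ i, ∀ g ∈ Δ, ∀ u ∈ W i, R g u ∈ W i)
  (hPΔ : ∀ i, ∀ g ∈ Δ, P i * R g = R g * P i)

include hP in
theorem HW_sp (i : Fin s) {Y : ∀ i, Module.End K (W i)} (hY : Y ∈ HW ω R W) (u v : W i) :
    Bf ω (P i) (W i) (Y i u) v + Bf ω (P i) (W i) u (Y i v) = 0 := by
  obtain ⟨y, hy, h⟩ := hY
  rw [Bf_apply, Bf_apply, h, h]
  have h1 := HZ_comm hy (hP i)
  have h2 := congrArg (fun f : Module.End K (ι → K) => f (u : ι → K)) h1
  change y (P i u) = P i (y u) at h2
  rw [← h2]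
  exact hy.2 _ _

include hnd hω hpink hos hss hW hP hPa hPn hΔ hWΔ hPΔ in
theorem nil_HW [IsAlgClosed K] (i : Fin s) : ∃ N ∈ HW ω R W, (∀ j, N j * N j = 0) ∧
    ∃ (u : W i) (φ : Dual K (W i)), u ≠ 0 ∧ φ ≠ 0 ∧ N i = φ.smulRight u := by
  obtain ⟨-, γ, hγ, hr⟩ := hos (W i) (hW i)
  have h𝔥 := lieFam_HW W Δ hWΔ hBR hCJ hω
  have hne : (W i).map (R γ - 1) ≠ ⊥ := by
    intro h
    rw [h, finrank_bot] at hr
    rcases hr with hr | hr
    · exact absurd hr (by decide)
    · exact absurd hr (by decide)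
  obtain ⟨x, hx, hx0⟩ := Pool.Agent.W528.Odd.exists_ne hne
  have hNH : R γ - 1 ∈ HZ ω R := HZ_unip hUN hnd hω hγ hx0
  obtain ⟨N, hN, hNx⟩ := fam_of hss W hW hNH
  have hNN : ∀ j, N j * N j = 0 := by
    intro j
    have h3 := sq_res (hNx j) 0 (by rw [hγ, zero_smul])
    rwa [zero_smul] at h3
  have hN0 : N i ≠ 0 := by
    intro h
    apply hx0
    have h1 := hNx i ⟨x, hx⟩
    rw [h, LinearMap.zero_apply] at h1
    exact h1.symm
  have halt : ∀ v, Bf ω (P i) (W i) v v = 0 := fun v => hPa i _ v.2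
  have hanti := alt_anti halt
  have hndl : ∀ u, (∀ v, Bf ω (P i) (W i) u v = 0) → u = 0 := by
    intro u hu
    exact Subtype.ext (hPn i u u.2 fun v hv => hu ⟨v, hv⟩)
  have hndr : ∀ u, (∀ v, Bf ω (P i) (W i) v u = 0) → u = 0 := by
    intro u hu
    refine hndl u fun v => ?_
    rw [hanti, hu, neg_zero]
  have hsim : ∀ (g : Δ) u v, Bf ω (P i) (W i) (resR R Δ (W i) (hWΔ i) g u)
      (resR R Δ (W i) (hWΔ i) g v) = χ g * Bf ω (P i) (W i) u v := by
    intro g u v
    rw [Bf_apply, Bf_apply, resR_apply, resR_apply]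
    have h1 := congrArg (fun f : Module.End K (ι → K) => f (u : ι → K)) (hPΔ i g.1 g.2)
    change P i (R g.1 u) = R g.1 (P i u) at h1
    rw [h1, hω]
  have hsp := fun Y (hY : Y ∈ HW ω R W) => HW_sp W P hP i hY
  have hirr : Irr (resR R Δ (W i) (hWΔ i)) := sIrr_res (hW i) Δ hΔ (hWΔ i)
  rcases hr with hr | hr
  · -- rank two
    obtain ⟨M, hM0, hM⟩ := exists_pow_mem Δ hΔ γ
    have hMK : (M : K) ≠ 0 := Nat.cast_ne_zero.2 hM0
    refine nil_of_small (χ := χ.comp Δ.subtype) h𝔥 i (Bf ω (P i) (W i)) halt hndr hsim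
      hsp hirr (N := (M : K) • N) (Submodule.smul_mem _ _ hN) ?_ ?_ ?_ ⟨γ ^ M, hM⟩ ?_
    · intro j
      rw [Pi.smul_apply, smul_mul_smul_comm, hNN, smul_zero]
    · rw [Pi.smul_apply]
      exact smul_ne_zero hMK hN0
    · have h1 : LinearMap.range (((M : K) • N) i) = LinearMap.range (N i) := by
        rw [Pi.smul_apply]
        exact LinearMap.range_smul _ _ hMK
      rw [h1]
      have h2 := rk_res (hNx i)
      unfold rk at h2
      rw [h2, hr]
    · refine LinearMap.ext fun u => Subtype.ext ?_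
      rw [resR_apply]
      change R (γ ^ M) (u : ι → K) = _
      rw [unip_pow γ hγ, LinearMap.add_apply, LinearMap.add_apply, Submodule.coe_add,
        LinearMap.smul_apply, Pi.smul_apply, LinearMap.smul_apply, Submodule.coe_smul, hNx]
      rfl
  · -- odd rank
    have hbr : ∀ X ∈ (HW ω R W).map (LinearMap.proj i), ∀ Y ∈ (HW ω R W).map (LinearMap.proj i),
        X * Y - Y * X ∈ (HW ω R W).map (LinearMap.proj i) := by
      rintro _ ⟨X', hX', rfl⟩ _ ⟨Y', hY', rfl⟩
      exact ⟨brk X' Y', h𝔥.br X' hX' Y' hY', rfl⟩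
    have hsp' : ∀ X ∈ (HW ω R W).map (LinearMap.proj i), ∀ u w,
        Bf ω (P i) (W i) (X u) w + Bf ω (P i) (W i) u (X w) = 0 := by
      rintro _ ⟨X', hX', rfl⟩ u w
      exact hsp X' hX' u w
    have hirr' : ∀ W' : Submodule K (W i), (∀ X ∈ (HW ω R W).map (LinearMap.proj i),
        X * X = (1 / 4 : K) • 1 → ∀ u ∈ W', X u ∈ W') → W' = ⊥ ∨ W' = ⊤ := by
      intro W' hW'
      have h1 : Pot R (W'.map (W i).subtype) := by
        refine pot_of_hodge hpink _ ?_
        rintro p hp _ ⟨u, hu, rfl⟩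
        obtain ⟨h2, h3⟩ := HZ_hodge hID hp
        obtain ⟨Y, hY, hYx⟩ := fam_of hss W hW h2
        have h4 := hW' (Y i) ⟨Y, hY, rfl⟩ (sq_res (hYx i) _ h3) u hu
        refine ⟨Y i u + (1 / 2 : K) • u, W'.add_mem h4 (W'.smul_mem _ hu), ?_⟩
        change ((Y i u + (1 / 2 : K) • u : W i) : ι → K) = p (u : ι → K)
        rw [Submodule.coe_add, Submodule.coe_smul, hYx, LinearMap.sub_apply,
          LinearMap.smul_apply, Module.End.one_apply, sub_add_cancel]
      rcases (hW i).2.2 _ (Submodule.map_subtype_le _ _) h1 with h2 | h2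
      · left
        rw [eq_bot_iff]
        intro u hu
        have h3 : (u : ι → K) ∈ W'.map (W i).subtype := ⟨u, hu, rfl⟩
        rw [h2, Submodule.mem_bot] at h3
        rw [Submodule.mem_bot]
        exact Subtype.ext h3
      · right
        rw [eq_top_iff]
        intro u _
        have h3 : (u : ι → K) ∈ W'.map (W i).subtype := by
          rw [h2]
          exact u.2
        obtain ⟨u', hu', huu⟩ := h3
        have h4 : u' = u := Subtype.ext huu
        rw [← h4]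
        exact hu'
    obtain ⟨e, he, hre⟩ := exists_rank_one_odd halt hndl Pool.Agent.W72.OT.Bound.main hbr hsp'
      hirr' (N := N i) ⟨N, hN, rfl⟩ (hNN i) (by rw [rk_res (hNx i)]; exact hr)
    have hall := all_of_rank_one (resR R Δ (W i) (hWΔ i)) (χ.comp Δ.subtype) hirr hbr (by
      rintro g _ ⟨X', hX', rfl⟩
      exact ⟨_, h𝔥.conj g X' hX', rfl⟩) (Bf ω (P i) (W i)) halt hndr hsim hsp' he hre
    exact nil_of_all h𝔥 i (Bf ω (P i) (W i)) halt hndr hsp hall hN hNN hN0

include hnd hω hpink hos hss hW hP hPa hPn hΔ hPΔ in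
theorem types_HW [IsAlgClosed K] : Types (fun i => resR R Δ (W i) (hWΔ i)) (HW ω R W)
    (fun _ => True) (fun _ => True) (fun i => Bf ω (P i) (W i)) (χ.comp Δ.subtype) where
  irr := fun i _ => sIrr_res (hW i) Δ hΔ (hWΔ i)
  alt := fun i _ u => hPa i _ u.2
  inj := by
    intro i _
    rw [injective_iff_map_eq_zero]
    intro u hu
    refine Subtype.ext (hPn i u u.2 fun v hv => ?_)
    have h1 := congrArg (fun f : Dual K (W i) => f ⟨v, hv⟩) hu
    exact h1
  sim := by
    intro i _ g u v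
    rw [Bf_apply, Bf_apply, resR_apply, resR_apply]
    have h1 := congrArg (fun f : Module.End K (ι → K) => f (u : ι → K)) (hPΔ i g.1 g.2)
    change P i (R g.1 u) = R g.1 (P i u) at h1
    rw [h1, hω]
    rfl
  sp := fun i _ X hX u v => HW_sp W P hP i hX u v
  nf := fun i _ h => absurd trivial h
  nil := by
    intro i _
    obtain ⟨N, hN, hNN, u, φ, hu, hφ, hNi⟩ := nil_HW hss hnd hω hpink hos W hW P hP hPa hPn Δ hΔ
      hWΔ hPΔ i
    refine ⟨N, hN, hNN, u, φ, hu, hφ, ?_, hNi⟩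
    have h3 := hNN i
    rw [hNi] at h3
    obtain ⟨v, hv⟩ : ∃ v, φ v ≠ 0 := by
      by_contra h4
      push Not at h4
      exact hφ (LinearMap.ext h4)
    have h4 := congrArg (fun f : Module.End K (W i) => f v) h3
    simp only [Module.End.mul_apply, LinearMap.smulRight_apply, map_smul,
      LinearMap.zero_apply] at h4
    rcases smul_eq_zero.1 h4 with h5 | h5
    · exact absurd h5 hv
    · exact (smul_eq_zero.1 h5).resolve_right hu

include hW hWW hΔ hω hPn hPΔ in
theorem notwist (i j : Fin s) (hij : i ≠ j) :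
    NoTwist (resR R Δ (W i) (hWΔ i)) (resR R Δ (W j) (hWΔ j)) := by
  have hdu : ∀ i, Du R χ (W i) (W i) := by
    intro i
    obtain ⟨u, hu, hu0⟩ := Submodule.exists_mem_ne_zero_of_ne_bot (hW i).1
    refine ⟨Δ, hΔ, ω.comp (P i), ⟨u, hu, ?_⟩, ?_⟩
    · by_contra hcon
      push Not at hcon
      exact hu0 (hPn i u hu hcon)
    · intro g hg u hu v hv
      have h1 := congrArg (fun f : Module.End K (ι → K) => f (u : ι → K)) (hPΔ i g hg)
      change P i (R g u) = R g (P i u) at h1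
      rw [LinearMap.comp_apply, LinearMap.comp_apply, h1, hω]
  have htw : ∀ i j, i ≠ j → ∀ (T : W i →ₗ[K] W j) (ψ : Δ → K),
      (∀ g u, T (resR R Δ (W i) (hWΔ i) g u) = ψ g • resR R Δ (W j) (hWΔ j) g (T u)) →
      T = 0 := by
    intro i j hij T ψ hT
    by_contra hT0
    obtain ⟨p, hp⟩ := exists_pr (W i)
    classical
    let ψ' : Γ → K := fun g => if h : g ∈ Δ then ψ ⟨g, h⟩ else 1
    have htw : Tw R ψ' (W i) (W j) := by
      refine ⟨Δ, hΔ, (W j).subtype.comp (T.comp p), fun u _ => SetLike.coe_mem _, ?_, ?_⟩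
      · by_contra hcon
        push Not at hcon
        apply hT0
        refine LinearMap.ext fun u => Subtype.ext ?_
        have h1 := hcon u u.2
        rw [LinearMap.comp_apply, LinearMap.comp_apply, hp] at h1
        exact h1
      · intro g hg u hu
        have h1 := hT ⟨g, hg⟩ ⟨u, hu⟩
        have h2 : p (R g u) = resR R Δ (W i) (hWΔ i) ⟨g, hg⟩ ⟨u, hu⟩ :=
          hp (resR R Δ (W i) (hWΔ i) ⟨g, hg⟩ ⟨u, hu⟩)
        have h3 : p u = ⟨u, hu⟩ := hp ⟨u, hu⟩
        have h4 : ψ' g = ψ ⟨g, hg⟩ := dif_pos hg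
        rw [LinearMap.comp_apply, LinearMap.comp_apply, LinearMap.comp_apply,
          LinearMap.comp_apply, h2, h3, h1, h4]
        rfl
    exact hij (hWW _ _ (sp_twist (hW i) (hW j) (hdu i) (hdu j) htw))
  refine ⟨htw i j hij, ?_⟩
  intro T ψ hT
  -- the dual of `W j` is `W j` up to a twist
  have hinj : Function.Injective (Bf ω (P j) (W j)) := by
    rw [injective_iff_map_eq_zero]
    intro u hu
    refine Subtype.ext (hPn j u u.2 fun v hv => ?_)
    have h1 := congrArg (fun f : Dual K (W j) => f ⟨v, hv⟩) hu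
    exact h1
  have hbij : Function.Bijective (Bf ω (P j) (W j)) :=
    ⟨hinj, (LinearMap.injective_iff_surjective_of_finrank_eq_finrank
      (Subspace.dual_finrank_eq (K := K) (V := W j)).symm).1 hinj⟩
  let B : W j ≃ₗ[K] Dual K (W j) := LinearEquiv.ofBijective _ hbij
  have hB : ∀ w, B w = Bf ω (P j) (W j) w := fun _ => rfl
  let T' : W i →ₗ[K] W j := B.symm.toLinearMap.comp T
  have hBT : ∀ u, B (T' u) = T u := fun u => B.apply_symm_apply _
  have hsim : ∀ (g : Δ) u v, Bf ω (P j) (W j) (resR R Δ (W j) (hWΔ j) g u)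
      (resR R Δ (W j) (hWΔ j) g v) = χ g * Bf ω (P j) (W j) u v := by
    intro g u v
    rw [Bf_apply, Bf_apply, resR_apply, resR_apply]
    have h1 := congrArg (fun f : Module.End K (ι → K) => f (u : ι → K)) (hPΔ j g.1 g.2)
    change P j (R g.1 u) = R g.1 (P j u) at h1
    rw [h1, hω]
  have h1 := htw i j hij T' (fun g => ψ g * (χ g)⁻¹) (by
    intro g u
    apply B.injective
    rw [hBT, map_smul, hT g u]
    refine LinearMap.ext fun v => ?_
    rw [LinearMap.smul_apply, LinearMap.smul_apply, hB, smul_eq_mul, smul_eq_mul]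
    change ψ g * T u (resR R Δ (W j) (hWΔ j) g⁻¹ v) = _
    have h3 := hsim g (T' u) (resR R Δ (W j) (hWΔ j) g⁻¹ v)
    rw [r_inv'] at h3
    rw [h3, ← hB, hBT]
    have h4 : χ (g : Γ) ≠ 0 := χne _
    field_simp)
  have h2 : T = B.toLinearMap.comp T' := by
    refine LinearMap.ext fun u => ?_
    exact (hBT u).symm
  rw [h2, h1, LinearMap.comp_zero]

include hnd hω hpink hos hss hW hWW hP hPa hPn hΔ hWΔ hPΔ in
theorem exists_single [IsAlgClosed K] (i : Fin s) (u : W i) :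
    ∃ y ∈ HZ ω R, (∀ x : W i, y x = ω (P i u) x • (u : ι → K)) ∧
      ∀ j, j ≠ i → ∀ x ∈ W j, y x = 0 := by
  classical
  have hT := types_HW hss hnd hω hpink hos W hW P hP hPa hPn Δ hΔ hWΔ hPΔ
  have h𝔥 := lieFam_HW W Δ hWΔ hBR hCJ hω
  obtain ⟨X, ⟨y, hy, hyX⟩, hXi, hXj⟩ := full_indep h𝔥 hT (i := i) trivial (Finset.univ.erase i) (by
    intro j hj
    rw [Finset.mem_erase] at hj
    exact independent h𝔥 hT trivial trivial
      (notwist hω W hW hWW P hPn Δ hΔ hWΔ hPΔ i j (Ne.symm hj.1))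
      (notwist hω W hW hWW P hPn Δ hΔ hWΔ hPΔ j i hj.1)) u (Bf ω (P i) (W i) u)
    ⟨hT.alt i trivial u, fun _ => ⟨1, (one_smul _ _).symm⟩⟩
  refine ⟨y, hy, fun x => ?_, fun j hj x hx => ?_⟩
  · rw [← hyX, hXi]
    rfl
  · have h1 := hyX j ⟨x, hx⟩
    rw [hXj j (Finset.mem_erase.2 ⟨hj, Finset.mem_univ _⟩)] at h1
    exact h1.symm

end fam

end

end Pool.Agent.W528.ZC
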