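import Mathlib
import Pool.Agent.W528.ZC.Main3
import Pool.Agent.W528.ZC.FinDefs
import Pool.Agent.W522.U.C9

/-!
# Extension of scalars
-/

set_option linter.unusedSectionVars false

namespace Pool.Agent.W528.ZC

open Module MvPolynomial TensorProduct Pool.Agent.H204R3.GP Pool.Agent.H204R3.SP
open Pool.Agent.W522.U

noncomputable section

variable {k : Type} [Field k] {ι : Type} [Fintype ι] [DecidableEq ι] {Γ : Type} [Group Γ]

theorem repM_apply (ρ : Γ →* Matrix ι ι k) (Ω : Type) [Field Ω] [Algebra k Ω] (s : Γ) :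
    repM ρ Ω s = Matrix.toLin' ((ρ s).map (algebraMap k Ω)) := rfl

theorem toM_repM (ρ : Γ →* Matrix ι ι k) (Ω : Type) [Field Ω] [Algebra k Ω] (s : Γ) :
    toM (repM ρ Ω s) = (ρ s).map (algebraMap k Ω) := LinearMap.toMatrix'_toLin' _

variable {Ω : Type} [Field Ω] [Algebra k Ω]

/-- The identification of `Ω ⊗ k^ι` with `Ω^ι`. -/
def eqv (k Ω ι : Type) [Field k] [Field Ω] [Algebra k Ω] [Fintype ι] [DecidableEq ι] :
    (Ω ⊗[k] (ι → k)) ≃ₗ[Ω] (ι → Ω) := TensorProduct.piScalarRight k Ω Ω ι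

theorem eqv_tmul (a : Ω) (v : ι → k) (i : ι) : eqv k Ω ι (a ⊗ₜ[k] v) i = v i • a := by
  unfold eqv
  rw [TensorProduct.piScalarRight_apply, TensorProduct.piScalarRightHom_tmul]

theorem eqv_rep (ρ : Γ →* Matrix ι ι k) (s : Γ) (x : Ω ⊗[k] (ι → k)) :
    eqv k Ω ι (bcr (repM ρ k) Ω s x) = repM ρ Ω s (eqv k Ω ι x) := by
  induction x with
  | zero => simp only [map_zero]
  | add x y hx hy => simp only [map_add, hx, hy]
  | tmul a v =>
    change eqv k Ω ι ((repM ρ k s).baseChange Ω (a ⊗ₜ[k] v)) = _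
    rw [LinearMap.baseChange_tmul, repM_apply, repM_apply, Matrix.toLin'_apply,
      Matrix.toLin'_apply]
    funext i
    rw [eqv_tmul]
    simp only [Matrix.mulVec, dotProduct, eqv_tmul, Matrix.map_apply, Algebra.algebraMap_self,
      RingHom.id_apply, Finset.sum_smul]
    refine Finset.sum_congr rfl fun j _ => ?_
    rw [Algebra.smul_def, Algebra.smul_def, map_mul, mul_assoc]

theorem hasProj_repM [CharZero k] [Algebra.IsAlgebraic k Ω] (ρ : Γ →* Matrix ι ι k)
    (h : SemiM ρ) : HasProj (repM ρ Ω) := by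
  have h1 : FiniteIndexSemisimple (repM ρ k) := by
    intro Δ hΔ U hU
    have h2 : ∀ s (u : ι → k), repM ρ k s u = (ρ s).mulVec u := by
      intro s u
      rw [repM_apply, Matrix.toLin'_apply, Algebra.algebraMap_self]
      rfl
    obtain ⟨U', h3, h4⟩ := h Δ hΔ U (fun s hs u hu => by rw [← h2]; exact hU s hs u hu)
    exact ⟨U', fun s hs u hu => by rw [h2]; exact h3 s hs u hu, h4⟩
  have h2 := hasProj_bcr (repM ρ k) Ω h1
  intro Δ hΔ U hU
  let e := eqv k Ω ι
  obtain ⟨Q, hQ1, hQ2, hQ3⟩ := h2 Δ hΔ (U.comap e.toLinearMap) (by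
    intro s hs u hu
    rw [Submodule.mem_comap] at hu ⊢
    change e (bcr (repM ρ k) Ω s u) ∈ U
    rw [eqv_rep]
    exact hU s hs _ hu)
  refine ⟨e.toLinearMap.comp (Q.comp e.symm.toLinearMap), fun v => hQ1 _, fun u hu => ?_,
    fun s hs v => ?_⟩
  · change e (Q (e.symm u)) = u
    rw [hQ2 _ (by
      rw [Submodule.mem_comap]
      change e (e.symm u) ∈ U
      rwa [LinearEquiv.apply_symm_apply]), LinearEquiv.apply_symm_apply]
  · change e (Q (e.symm (repM ρ Ω s v))) = repM ρ Ω s (e (Q (e.symm v)))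
    have h3 : e.symm (repM ρ Ω s v) = bcr (repM ρ k) Ω s (e.symm v) := by
      apply e.injective
      rw [LinearEquiv.apply_symm_apply, eqv_rep, LinearEquiv.apply_symm_apply]
    rw [h3, hQ3 s hs, eqv_rep]

/-- An operator over the extension field that commutes with matrices over `k` is a combination of
matrices over `k` that commute with them. -/
theorem comm_ext (S : Set (Matrix ι ι k)) (P : Matrix ι ι Ω)
    (hP : ∀ M ∈ S, P * M.map (algebraMap k Ω) = M.map (algebraMap k Ω) * P) :
    P ∈ Submodule.span Ω {Q : Matrix ι ι Ω | ∃ N : Matrix ι ι k, (∀ M ∈ S, N * M = M * N) ∧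
      Q = N.map (algebraMap k Ω)} := by
  classical
  let b := Module.Free.chooseBasis k Ω
  let N : Module.Free.ChooseBasisIndex k Ω → Matrix ι ι k :=
    fun β => Matrix.of fun i j => b.repr (P i j) β
  let F : Finset (Module.Free.ChooseBasisIndex k Ω) :=
    Finset.univ.biUnion fun p : ι × ι => (b.repr (P p.1 p.2)).support
  have hsum : P = ∑ β ∈ F, b β • (N β).map (algebraMap k Ω) := by
    ext i j
    rw [Matrix.sum_apply]
    have h1 := b.linearCombination_repr (P i j)
    rw [Finsupp.linearCombination_apply, Finsupp.sum] at h1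
    conv_lhs => rw [← h1]
    rw [Finset.sum_subset (s₂ := F)]
    · refine Finset.sum_congr rfl fun β _ => ?_
      rw [Matrix.smul_apply, Matrix.map_apply, smul_eq_mul, Algebra.smul_def, mul_comm]
      rfl
    · intro β hβ
      exact Finset.mem_biUnion.2 ⟨(i, j), Finset.mem_univ _, hβ⟩
    · intro β _ hβ
      rw [Finsupp.notMem_support_iff.1 hβ, zero_smul]
  rw [hsum]
  refine Submodule.sum_mem _ fun β _ => Submodule.smul_mem _ _ (Submodule.subset_span
    ⟨N β, fun M hM => ?_, rfl⟩)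
  ext i j
  have h1 := congrFun (congrFun (hP M hM) i) j
  rw [Matrix.mul_apply, Matrix.mul_apply] at h1
  have h2 := congrArg (fun x => b.repr x β) h1
  simp only [map_sum, Finsupp.coe_finsetSum, Finset.sum_apply, Matrix.map_apply] at h2
  rw [Matrix.mul_apply, Matrix.mul_apply]
  have h3 : ∀ l, b.repr (P i l * algebraMap k Ω (M l j)) β = N β i l * M l j := by
    intro l
    rw [mul_comm, ← Algebra.smul_def, map_smul, Finsupp.smul_apply, smul_eq_mul, mul_comm]
    rfl
  have h4 : ∀ l, b.repr (algebraMap k Ω (M i l) * P l j) β = M i l * N β l j := by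
    intro l
    rw [← Algebra.smul_def, map_smul, Finsupp.smul_apply, smul_eq_mul]
    rfl
  simp only [h3, h4] at h2
  exact h2

end

end Pool.Agent.W528.ZC
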