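import Mathlib
import Pool.Agent.W528.ZC.Base

/-!
# The theorem in terms of matrices
-/

set_option linter.unusedSectionVars false
set_option linter.deprecated false

namespace Pool.Agent.W528.ZC

open Module MvPolynomial TensorProduct Pool.Agent.H204R3.GP Pool.Agent.H204R3.SP
open Pool.Agent.W522.U
open Pool.Agent.W528.Tor (AltDual)

noncomputable section

variable {k : Type} [Field k] [CharZero k] {ι : Type} [Fintype ι] [DecidableEq ι] {Γ : Type}
  [Group Γ] {Ω : Type} [Field Ω] [Algebra k Ω]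

theorem val_eq_ev (x : Matrix ι ι Ω) (f : MvPolynomial (ι × ι) Ω) : val x f = ev x f := rfl

theorem toM_toLin (x : Matrix ι ι Ω) : toM (Matrix.toLin' x) = x := LinearMap.toMatrix'_toLin' x

theorem toLin_toM (x : Module.End Ω (ι → Ω)) : Matrix.toLin' (toM x) = x :=
  Matrix.toLin'_toMatrix' x

theorem vanishes_iff (ρ : Γ →* Matrix ι ι k) (f : MvPolynomial (ι × ι) Ω) :
    Vanishes ρ f ↔ f ∈ I0 (repM ρ Ω) := by
  unfold Vanishes
  rw [mem_I0]
  simp only [toM_repM, val_eq_ev]

theorem inIC_iff (ρ : Γ →* Matrix ι ι k) (g : Matrix ι ι Ω) :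
    InIdentityComponent ρ g ↔ InZ (repM ρ Ω) (Matrix.toLin' g) := by
  unfold InIdentityComponent InZ
  simp only [vanishes_iff, val_eq_ev, toM_toLin]

/-- The bilinear form of a matrix. -/
def bf (ψ : Matrix ι ι Ω) : (ι → Ω) →ₗ[Ω] (ι → Ω) →ₗ[Ω] Ω := Matrix.toLinearMap₂' Ω ψ

theorem bf_apply (ψ : Matrix ι ι Ω) (u v : ι → Ω) : bf ψ u v = u ⬝ᵥ ψ.mulVec v := by
  unfold bf
  rw [Matrix.toLinearMap₂'_apply']

theorem bf_mul (ψ a b : Matrix ι ι Ω) (u v : ι → Ω) :
    bf ψ (a.mulVec u) (b.mulVec v) = bf (a.transpose * ψ * b) u v := by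
  rw [bf_apply, bf_apply, ← Matrix.mulVec_mulVec, ← Matrix.mulVec_mulVec,
    Matrix.dotProduct_mulVec u, Matrix.vecMul_transpose]

theorem bf_smul (c : Ω) (ψ : Matrix ι ι Ω) (u v : ι → Ω) : bf (c • ψ) u v = c * bf ψ u v := by
  rw [bf_apply, bf_apply, Matrix.smul_mulVec, dotProduct_smul, smul_eq_mul]

theorem bf_add (ψ ψ' : Matrix ι ι Ω) (u v : ι → Ω) :
    bf (ψ + ψ') u v = bf ψ u v + bf ψ' u v := by
  rw [bf_apply, bf_apply, bf_apply, Matrix.add_mulVec, dotProduct_add]

theorem bf_single (ψ : Matrix ι ι Ω) (i j : ι) :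
    bf ψ (Pi.single i 1) (Pi.single j 1) = ψ i j := by
  rw [bf_apply, Matrix.mulVec_single_one, single_one_dotProduct]
  rfl

theorem bf_inj {ψ ψ' : Matrix ι ι Ω} (h : ∀ u v, bf ψ u v = bf ψ' u v) : ψ = ψ' := by
  ext i j
  have h1 := h (Pi.single i 1) (Pi.single j 1)
  rwa [bf_single, bf_single] at h1

theorem bf_nondeg {ψ : Matrix ι ι Ω} (hψ : IsUnit ψ.det) (u : ι → Ω)
    (hu : ∀ v, bf ψ u v = 0) : u = 0 := by
  funext i
  have h1 := hu (ψ⁻¹.mulVec (Pi.single i 1))
  rw [bf_apply, Matrix.mulVec_mulVec, Matrix.mul_nonsing_inv _ hψ, Matrix.one_mulVec,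
    dotProduct_single_one] at h1
  exact h1

theorem wh_iff (ρ : Γ →* Matrix ι ι k) (ψ : Matrix ι ι Ω) (p : Matrix ι ι Ω) :
    WeakHodge ρ ψ p ↔ WHodge (bf ψ) (repM ρ Ω) (Matrix.toLin' p) := by
  unfold WeakHodge WHodge
  have h1 : p * p = p ↔ Matrix.toLin' p * Matrix.toLin' p = Matrix.toLin' p := by
    constructor
    · intro h
      conv_rhs => rw [← h, Matrix.toLin'_mul]
      rfl
    · intro h
      have h2 := congrArg toM h
      rwa [toM_mul, toM_toLin] at h2
  have h2 : p.transpose * ψ + ψ * p = ψ ↔ ∀ u v, bf ψ (Matrix.toLin' p u) v +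
      bf ψ u (Matrix.toLin' p v) = bf ψ u v := by
    have h3 : ∀ u v, bf ψ (Matrix.toLin' p u) v + bf ψ u (Matrix.toLin' p v) =
        bf (p.transpose * ψ + ψ * p) u v := by
      intro u v
      have h4 := bf_mul ψ p 1 u v
      have h5 := bf_mul ψ 1 p u v
      rw [Matrix.one_mulVec, mul_one] at h4
      rw [Matrix.one_mulVec, Matrix.transpose_one, one_mul] at h5
      rw [Matrix.toLin'_apply, Matrix.toLin'_apply, h4, h5, bf_add]
    constructor
    · intro h u v
      rw [h3, h]
    · intro h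
      exact bf_inj fun u v => by rw [← h3, h]
  have h3 : ∀ c : Ω, Matrix.toLin' (1 - p + c • p) = 1 - Matrix.toLin' p +
      c • Matrix.toLin' p := by
    intro c
    rw [map_add, map_sub, map_smul, Matrix.toLin'_one]
    rfl
  simp only [inIC_iff, h3]
  rw [h1, h2]

theorem hodge_iff (ρ : Γ →* Matrix ι ι k) (ψ : Matrix ι ι Ω) (h : HodgeGenerated ρ ψ) :
    PinkGen (bf ψ) (repM ρ Ω) := by
  intro f hf
  rw [← vanishes_iff]
  apply h
  intro x hx
  have h1 : Matrix.toLin' x ∈ Submonoid.closure {x : Module.End Ω (ι → Ω) |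
      ∃ (p : Module.End Ω (ι → Ω)) (c : Ω), WHodge (bf ψ) (repM ρ Ω) p ∧ c ≠ 0 ∧
        x = 1 - p + c • p} := by
    induction hx using Submonoid.closure_induction with
    | mem x hx =>
      obtain ⟨p, c, hp, hc, rfl⟩ := hx
      refine Submonoid.subset_closure ⟨Matrix.toLin' p, c, (wh_iff ρ ψ p).1 hp, hc, ?_⟩
      rw [map_add, map_sub, map_smul, Matrix.toLin'_one]
      rfl
    | one =>
      rw [Matrix.toLin'_one]
      exact Submonoid.one_mem _
    | mul x y _ _ h1 h2 =>
      rw [Matrix.toLin'_mul]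
      exact Submonoid.mul_mem _ h1 h2
  have h2 := hf _ h1
  rwa [toM_toLin] at h2

/-- The form is multiplied by a constant by the identity component. -/
theorem InZ_form {R : Representation Ω Γ (ι → Ω)} (ω : (ι → Ω) →ₗ[Ω] (ι → Ω) →ₗ[Ω] Ω)
    {χ : Γ → Ω} (hω : ∀ s u v, ω (R s u) (R s v) = χ s * ω u v) (h0 : ω ≠ 0)
    {g : Module.End Ω (ι → Ω)} (hg : InZ R g) : ∃ c : Ω, ∀ u v, ω (g u) (g v) = c * ω u v := by
  obtain ⟨a, b, hab⟩ : ∃ a b, ω (Pi.single a 1) (Pi.single b 1) ≠ 0 := by
    by_contra hcon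
    push Not at hcon
    exact h0 (form_ext hcon)
  let w : ι → ι → Ω := fun i j => ω (Pi.single i 1) (Pi.single j 1)
  let d : ι → ι → Ω := fun i j => ω (g (Pi.single i 1)) (g (Pi.single j 1))
  have key : ∀ i j, w a b * d i j = w i j * d a b := by
    intro i j
    have h1 : C (w a b) * qf ω i j - C (w i j) * qf ω a b ∈ I0 R := by
      refine ⟨⊤, inferInstance, fun g _ => ?_⟩
      rw [map_sub, map_mul, map_mul, ev_C, ev_C, ev_qf, ev_qf, hω, hω]
      ring
    have h3 := hg _ h1
    rw [map_sub, map_mul, map_mul, ev_C, ev_C, ev_qf, ev_qf] at h3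
    exact sub_eq_zero.1 h3
  refine ⟨d a b / w a b, ?_⟩
  have h4 : ω.compl₁₂ g g - (d a b / w a b) • ω = 0 := by
    apply form_ext
    intro i j
    have h5 := key i j
    have h6 : w a b ≠ 0 := hab
    rw [LinearMap.sub_apply, LinearMap.sub_apply, LinearMap.compl₁₂_apply, LinearMap.smul_apply,
      LinearMap.smul_apply, smul_eq_mul]
    change d i j - d a b / w a b * w i j = 0
    field_simp
    linear_combination h5
  intro u v
  have h5 := congrArg (fun B : (ι → Ω) →ₗ[Ω] (ι → Ω) →ₗ[Ω] Ω => B u v) h4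
  rw [LinearMap.sub_apply, LinearMap.sub_apply, LinearMap.compl₁₂_apply, LinearMap.smul_apply,
    LinearMap.smul_apply, smul_eq_mul, LinearMap.zero_apply, LinearMap.zero_apply,
    sub_eq_zero] at h5
  exact h5

theorem main_M [CharZero Ω] [IsAlgClosed Ω] [Algebra.IsAlgebraic k Ω] {ρ : Γ →* Matrix ι ι k}
    {χ : Γ →* k} {ψ : Matrix ι ι k} (hψ : IsUnit ψ.det) {E : Set (Matrix ι ι k)}
    (h : Known Ω ρ χ ψ E) (hodd : OddOrTwo (repM ρ Ω) ((algebraMap k Ω).toMonoidHom.comp χ))
    (g : Matrix ι ι Ω) (hg : IsUnit g.det) :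
    InIdentityComponent ρ g ↔
      (∃ c : Ω, c ≠ 0 ∧ g.transpose * ψ.map (algebraMap k Ω) * g = c • ψ.map (algebraMap k Ω)) ∧
      ∀ e ∈ E, g * e.map (algebraMap k Ω) = e.map (algebraMap k Ω) * g := by
  have hψ' : IsUnit (ψ.map (algebraMap k Ω)).det := by
    have h1 := (algebraMap k Ω).map_det ψ
    rw [RingHom.mapMatrix_apply] at h1
    rw [← h1]
    exact hψ.map _
  have hω : ∀ s u v, bf (ψ.map (algebraMap k Ω)) (repM ρ Ω s u) (repM ρ Ω s v) =
      ((algebraMap k Ω).toMonoidHom.comp χ) s * bf (ψ.map (algebraMap k Ω)) u v := by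
    intro s u v
    have h1 := congrArg (fun M : Matrix ι ι k => M.map (algebraMap k Ω)) (h.form s)
    simp only [Matrix.map_mul, Matrix.transpose_map] at h1
    rw [repM_apply, Matrix.toLin'_apply, Matrix.toLin'_apply, bf_mul, h1, ← bf_smul]
    congr 3
    ext i j
    simp only [Matrix.map_apply, Matrix.smul_apply, smul_eq_mul, map_mul]
    rfl
  have hnd := fun u => bf_nondeg (ψ := ψ.map (algebraMap k Ω)) hψ' u
  rw [inIC_iff]
  constructor
  · intro hz
    refine ⟨?_, fun e he => ?_⟩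
    · by_cases h0 : bf (ψ.map (algebraMap k Ω)) = 0
      · refine ⟨1, one_ne_zero, ?_⟩
        have h1 : ∀ M : Matrix ι ι Ω, M = 0 := by
          intro M
          have h2 : ψ.map (algebraMap k Ω) = 0 := bf_inj fun u v => by
            rw [h0, bf_apply, Matrix.zero_mulVec, dotProduct_zero]
            rfl
          have h3 := Matrix.mul_nonsing_inv _ hψ'
          rw [h2, zero_mul] at h3
          rw [← mul_one M, ← h3, mul_zero]
        rw [h1 (g.transpose * _ * g), h1 ((1 : Ω) • _)]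
      · obtain ⟨c, hc⟩ := InZ_form _ hω h0 hz
        have h1 : g.transpose * ψ.map (algebraMap k Ω) * g = c • ψ.map (algebraMap k Ω) := by
          refine bf_inj fun u v => ?_
          rw [← bf_mul, bf_smul, ← hc, Matrix.toLin'_apply, Matrix.toLin'_apply]
        refine ⟨c, ?_, h1⟩
        rintro rfl
        rw [zero_smul] at h1
        apply h0
        have h2 : ψ.map (algebraMap k Ω) = 0 := by
          have h3 : (g.transpose)⁻¹ * (g.transpose * ψ.map (algebraMap k Ω) * g) * g⁻¹ =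
              ψ.map (algebraMap k Ω) := by
            have hgt : IsUnit g.transpose.det := by rwa [Matrix.det_transpose]
            rw [mul_assoc g.transpose, ← mul_assoc, Matrix.nonsing_inv_mul _ hgt, one_mul,
              mul_assoc, Matrix.mul_nonsing_inv _ hg, mul_one]
          rw [← h3, h1, mul_zero, zero_mul]
        rw [h2]
        refine LinearMap.ext fun u => LinearMap.ext fun v => ?_
        rw [bf_apply, Matrix.zero_mulVec, dotProduct_zero]
        rfl
    · obtain ⟨Δ, hΔ, hE⟩ := h.endo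
      have h1 := InZ_comm hz (P := Matrix.toLin' (e.map (algebraMap k Ω)))
        ⟨Δ, hΔ, fun s hs => by
          rw [repM_apply]
          have h2 := congrArg (fun M : Matrix ι ι k => Matrix.toLin' (M.map (algebraMap k Ω)))
            (hE s hs e he)
          simp only [Matrix.map_mul, Matrix.toLin'_mul] at h2
          exact h2⟩
      have h2 := congrArg toM h1
      rwa [toM_mul, toM_mul, toM_toLin, toM_toLin] at h2
  · rintro ⟨⟨c, hc, hgc⟩, hE⟩
    have hlin : ∀ M ∈ Submodule.span k E, g * M.map (algebraMap k Ω) =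
        M.map (algebraMap k Ω) * g := by
      intro M hM
      induction hM using Submodule.span_induction with
      | mem M hM => exact hE M hM
      | zero => rw [Matrix.map_zero _ (map_zero _), mul_zero, zero_mul]
      | add M N _ _ h1 h2 =>
        rw [Matrix.map_add _ (map_add _), mul_add, add_mul, h1, h2]
      | smul a M _ h1 =>
        have h2 : (a • M).map (algebraMap k Ω) = algebraMap k Ω a • M.map (algebraMap k Ω) := by
          ext i j
          simp only [Matrix.map_apply, Matrix.smul_apply, smul_eq_mul, map_mul]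
        rw [h2, mul_smul_comm, smul_mul_assoc, h1]
    refine main_Z (χ := (algebraMap k Ω).toMonoidHom.comp χ) (hasProj_repM ρ h.semi) hnd hω
      (hodge_iff ρ _ h.pink) hodd ?_ (Matrix.toLin' g) ?_ hc ?_
    · obtain ⟨p, hp⟩ := h.hodgeTate
      exact ⟨_, (wh_iff ρ _ p).1 hp⟩
    · rintro P ⟨Δ, hΔ, hP⟩
      have h1 := comm_ext (Ω := Ω) (ρ '' (Δ : Set Γ)) (toM P) (by
        rintro _ ⟨s, hs, rfl⟩
        have h2 := congrArg toM (hP s hs)
        rwa [toM_mul, toM_mul, toM_repM] at h2)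
      have h2 : ∀ Q ∈ Submodule.span Ω {Q : Matrix ι ι Ω | ∃ N : Matrix ι ι k,
          (∀ M ∈ ρ '' (Δ : Set Γ), N * M = M * N) ∧ Q = N.map (algebraMap k Ω)},
          g * Q = Q * g := by
        intro Q hQ
        induction hQ using Submodule.span_induction with
        | mem Q hQ =>
          obtain ⟨N, hN, rfl⟩ := hQ
          exact hlin N (h.comm Δ hΔ N fun s hs => hN _ ⟨s, hs, rfl⟩)
        | zero => rw [mul_zero, zero_mul]
        | add M N _ _ h1 h2 => rw [mul_add, add_mul, h1, h2]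
        | smul a M _ h1 => rw [mul_smul_comm, smul_mul_assoc, h1]
      have h3 := h2 _ h1
      have h4 := congrArg Matrix.toLin' h3
      rw [Matrix.toLin'_mul, Matrix.toLin'_mul, toLin_toM] at h4
      exact h4
    · intro u v
      rw [Matrix.toLin'_apply, Matrix.toLin'_apply, bf_mul, hgc, bf_smul]

end

end Pool.Agent.W528.ZC
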