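import Mathlib
import Pool.Agent.W528.ZC.Fin

/-!
# The equations of the Lefschetz group
-/

set_option linter.unusedSectionVars false

namespace Pool.Agent.W528.ZC

open Module MvPolynomial

noncomputable section

variable {ι : Type} [Fintype ι] [DecidableEq ι]

/-- Equations of the group of the similitudes of `ψ` that commute with `E`. -/
def lef (ψ : Matrix ι ι ℚ) (E : Set (Matrix ι ι ℚ)) : Set (MvPolynomial (ι × ι) ℚ) :=
  {f | ∃ e ∈ E, ∃ i j, f = (∑ l, X (i, l) * C (e l j)) - ∑ l, C (e i l) * X (l, j)} ∪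
  {f | ∃ i j a b, f = (∑ l, ∑ m, X (l, i) * C (ψ l m) * X (m, j)) * C (ψ a b) -
    (∑ l, ∑ m, X (l, a) * C (ψ l m) * X (m, b)) * C (ψ i j)}

theorem triple {L : Type} [Field L] (g M : Matrix ι ι L) (i j : ι) :
    (g.transpose * M * g) i j = ∑ l, ∑ m, g l i * M l m * g m j := by
  rw [Matrix.mul_apply]
  simp only [Matrix.mul_apply, Matrix.transpose_apply, Finset.sum_mul]
  rw [Finset.sum_comm]

theorem lef_iff {ψ : Matrix ι ι ℚ} (hψ : IsUnit ψ.det) {E : Set (Matrix ι ι ℚ)}
    (L : Type) [Field L] [Algebra ℚ L] (g : Matrix ι ι L) (hg : IsUnit g.det) :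
    (∀ f ∈ lef ψ E, aeval (fun p => g p.1 p.2) f = 0) ↔
      (∃ c : L, c ≠ 0 ∧ g.transpose * ψ.map (algebraMap ℚ L) * g =
        c • ψ.map (algebraMap ℚ L)) ∧
      ∀ e ∈ E, g * e.map (algebraMap ℚ L) = e.map (algebraMap ℚ L) * g := by
  have hψ' : IsUnit (ψ.map (algebraMap ℚ L)).det := by
    have h1 := (algebraMap ℚ L).map_det ψ
    rw [RingHom.mapMatrix_apply] at h1
    rw [← h1]
    exact hψ.map _
  have e1 : ∀ (e : Matrix ι ι ℚ) (i j : ι), aeval (fun p : ι × ι => g p.1 p.2)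
      ((∑ l, X (i, l) * C (e l j)) - ∑ l, C (e i l) * X (l, j) : MvPolynomial (ι × ι) ℚ) =
      (g * e.map (algebraMap ℚ L)) i j - (e.map (algebraMap ℚ L) * g) i j := by
    intro e i j
    simp only [map_sub, map_sum, map_mul, aeval_X, aeval_C, Matrix.mul_apply, Matrix.map_apply]
  have e2 : ∀ (i j a b : ι), aeval (fun p : ι × ι => g p.1 p.2)
      ((∑ l, ∑ m, X (l, i) * C (ψ l m) * X (m, j)) * C (ψ a b) -
        (∑ l, ∑ m, X (l, a) * C (ψ l m) * X (m, b)) * C (ψ i j) : MvPolynomial (ι × ι) ℚ) =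
      (g.transpose * ψ.map (algebraMap ℚ L) * g) i j * ψ.map (algebraMap ℚ L) a b -
      (g.transpose * ψ.map (algebraMap ℚ L) * g) a b * ψ.map (algebraMap ℚ L) i j := by
    intro i j a b
    rw [triple, triple]
    simp only [map_sub, map_sum, map_mul, aeval_X, aeval_C, Matrix.map_apply]
  constructor
  · intro h
    refine ⟨?_, fun e he => ?_⟩
    · by_cases h0 : ∃ a b, ψ.map (algebraMap ℚ L) a b ≠ 0
      · obtain ⟨a, b, hab⟩ := h0
        have h1 : g.transpose * ψ.map (algebraMap ℚ L) * g =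
            ((g.transpose * ψ.map (algebraMap ℚ L) * g) a b / ψ.map (algebraMap ℚ L) a b) •
              ψ.map (algebraMap ℚ L) := by
          ext i j
          have h2 := h _ (Or.inr ⟨i, j, a, b, rfl⟩)
          rw [e2, sub_eq_zero] at h2
          rw [Matrix.smul_apply, smul_eq_mul, div_mul_eq_mul_div, eq_div_iff hab, h2]
        refine ⟨_, ?_, h1⟩
        intro h3
        rw [h3, zero_smul] at h1
        apply hab
        have hgt : IsUnit g.transpose.det := by rwa [Matrix.det_transpose]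
        have h4 : (g.transpose)⁻¹ * (g.transpose * ψ.map (algebraMap ℚ L) * g) * g⁻¹ =
            ψ.map (algebraMap ℚ L) := by
          rw [mul_assoc g.transpose, ← mul_assoc, Matrix.nonsing_inv_mul _ hgt, one_mul,
            mul_assoc, Matrix.mul_nonsing_inv _ hg, mul_one]
        rw [← h4, h1, mul_zero, zero_mul]
        rfl
      · push Not at h0
        have h1 : ψ.map (algebraMap ℚ L) = 0 := by
          ext i j
          exact h0 i j
        have h2 := Matrix.mul_nonsing_inv _ hψ'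
        rw [h1, zero_mul] at h2
        have h3 : ∀ M : Matrix ι ι L, M = 0 := fun M => by rw [← mul_one M, ← h2, mul_zero]
        exact ⟨1, one_ne_zero, by rw [h3 (g.transpose * _ * g), h3 ((1 : L) • _)]⟩
    · ext i j
      have h2 := h _ (Or.inl ⟨e, he, i, j, rfl⟩)
      rwa [e1, sub_eq_zero] at h2
  · rintro ⟨⟨c, -, hc⟩, hE⟩ f (⟨e, he, i, j, rfl⟩ | ⟨i, j, a, b, rfl⟩)
    · rw [e1, hE e he, sub_self]
    · rw [e2, hc, Matrix.smul_apply, Matrix.smul_apply, smul_eq_mul, smul_eq_mul]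
      ring

/-- The identity component does not change if the group is replaced by a subgroup of finite
index. -/
theorem inIC_sub {k : Type} [Field k] {Γ : Type} [Group Γ] {Ω : Type} [Field Ω] [Algebra k Ω]
    (ρ : Γ →* Matrix ι ι k) (Γ' : Subgroup Γ) (hΓ' : Γ'.FiniteIndex) (g : Matrix ι ι Ω) :
    InIdentityComponent (ρ.comp Γ'.subtype) g ↔ InIdentityComponent ρ g := by
  unfold InIdentityComponent
  refine forall_congr' fun f => ?_
  have h1 : Vanishes (ρ.comp Γ'.subtype) f ↔ Vanishes ρ f := by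
    constructor
    · rintro ⟨Δ, hΔ, h⟩
      refine ⟨Δ.map Γ'.subtype, Pool.Agent.W522.U.fi_map hΓ' Δ hΔ, ?_⟩
      rintro _ ⟨s, hs, rfl⟩
      exact h s hs
    · rintro ⟨Δ, hΔ, h⟩
      exact ⟨Δ.comap Γ'.subtype, Pool.Agent.W528.Odd.fi_comap Γ'.subtype Δ hΔ, fun s hs => h _ hs⟩
  rw [h1]

end

end Pool.Agent.W528.ZC
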