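import Mathlib
import Pool.Agent.W528.ZC.FinDefs

/-!
# Definitions for the common `ℚ`-form
-/

namespace Pool.Agent.W528.ZC

noncomputable section

variable {ι : Type} [Fintype ι] [DecidableEq ι] {Γ : Type} [Group Γ]

/-- A rational matrix as a matrix over an extension field. -/
def mapQ (L : Type) [Field L] [Algebra ℚ L] (M : Matrix ι ι ℚ) : Matrix ι ι L :=
  M.map (algebraMap ℚ L)

/-- The points of the Lefschetz group: `g` multiplies `ψ` by a nonzero constant and commutes with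
the matrices in `E`. -/
def InLefschetz (ψ : Matrix ι ι ℚ) (E : Set (Matrix ι ι ℚ)) {L : Type} [Field L] [Algebra ℚ L]
    (g : Matrix ι ι L) : Prop :=
  (∃ c : L, c ≠ 0 ∧ g.transpose * mapQ L ψ * g = c • mapQ L ψ) ∧
    ∀ e ∈ E, g * mapQ L e = mapQ L e * g

/-- The matrix `g` is a zero of all the polynomials in `S`. -/
def IsZeroOf (S : Set (MvPolynomial (ι × ι) ℚ)) {L : Type} [Field L] [Algebra ℚ L]
    (g : Matrix ι ι L) : Prop :=
  ∀ f ∈ S, MvPolynomial.aeval (fun p => g p.1 p.2) f = 0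

/-- The representation `ρ` on the `ℓ`-adic Tate module has the known properties (`Known`), and
`OddOrTwo`. -/
def GoodAt (ψ : Matrix ι ι ℚ) (E : Set (Matrix ι ι ℚ)) (ℓ : ℕ) [Fact ℓ.Prime]
    (ρ : Γ →* Matrix ι ι ℚ_[ℓ]) (χ : Γ →* ℚ_[ℓ]) : Prop :=
  Known (AlgebraicClosure ℚ_[ℓ]) ρ χ (mapQ ℚ_[ℓ] ψ) (mapQ ℚ_[ℓ] '' E) ∧
    OddOrTwo (repM ρ (AlgebraicClosure ℚ_[ℓ]))
      ((algebraMap ℚ_[ℓ] (AlgebraicClosure ℚ_[ℓ])).toMonoidHom.comp χ)

end

end Pool.Agent.W528.ZC
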