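import Mathlib
import Pool.Agent.W528.ZC.FinDefs2

/-!
# Definitions for the full monodromy group
-/

namespace Pool.Agent.W528.ZC

open MvPolynomial

noncomputable section

variable {k : Type} [Field k] {ι : Type} [Fintype ι] [DecidableEq ι] {Γ : Type} [Group Γ]

/-- The matrix `g` is in the Zariski closure of the image of `ρ`: all polynomials in the entries
that vanish on the image vanish at `g`. -/
def InClosure {Ω : Type} [Field Ω] [Algebra k Ω] (ρ : Γ →* Matrix ι ι k) (g : Matrix ι ι Ω) :
    Prop :=
  ∀ f : MvPolynomial (ι × ι) Ω, (∀ s, val ((ρ s).map (algebraMap k Ω)) f = 0) → val g f = 0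

/-- The points of the twisted Lefschetz group: `g` multiplies `ψ` by a nonzero constant, and there
is an element `s` of the Galois group such that conjugation by `g` acts on the endomorphisms `E` as
`s` does (`σ` is the action of the Galois group on the endomorphisms). -/
def InTwisted (ψ : Matrix ι ι ℚ) (E : Set (Matrix ι ι ℚ)) (σ : Γ → Matrix ι ι ℚ → Matrix ι ι ℚ)
    {L : Type} [Field L] [Algebra ℚ L] (g : Matrix ι ι L) : Prop :=
  (∃ c : L, c ≠ 0 ∧ g.transpose * mapQ L ψ * g = c • mapQ L ψ) ∧
    ∃ s : Γ, ∀ e ∈ E, g * mapQ L e = mapQ L (σ s e) * g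

/-- The matrix `g` preserves `ψ`: the similitude character is one at `g`. -/
def Preserves (ψ : Matrix ι ι ℚ) {L : Type} [Field L] [Algebra ℚ L] (g : Matrix ι ι L) : Prop :=
  g.transpose * mapQ L ψ * g = mapQ L ψ

end

end Pool.Agent.W528.ZC
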