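import Mathlib
import Pool.Agent.W528.ZC.Eqs
import Pool.Agent.W528.ZC.FinDefs3

/-!
# The full monodromy group
-/

set_option linter.unusedSectionVars false
set_option linter.deprecated false

namespace Pool.Agent.W528.ZC

open Module MvPolynomial

noncomputable section

section closure

variable {k : Type} [Field k] [CharZero k] {ι : Type} [Fintype ι] [DecidableEq ι] {Γ : Type}
  [Group Γ] {Ω : Type} [Field Ω] [CharZero Ω] [IsAlgClosed Ω] [Algebra k Ω]

/-- The form is multiplied by a constant by the Zariski closure. -/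
theorem closure_form {ρ : Γ →* Matrix ι ι k} {χ : Γ →* k} {ψ : Matrix ι ι k}
    (hψ : IsUnit ψ.det) (hform : ∀ s, (ρ s).transpose * ψ * ρ s = χ s • ψ) {g : Matrix ι ι Ω}
    (hgu : IsUnit g.det) (hg : InClosure ρ g) : ∃ c : Ω, c ≠ 0 ∧
      g.transpose * ψ.map (algebraMap k Ω) * g = c • ψ.map (algebraMap k Ω) := by
  have hψ' : IsUnit (ψ.map (algebraMap k Ω)).det := by
    have h1 := (algebraMap k Ω).map_det ψ
    rw [RingHom.mapMatrix_apply] at h1
    rw [← h1]
    exact hψ.map _
  set ψΩ := ψ.map (algebraMap k Ω) with hψΩ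
  have hω : ∀ s, ((ρ s).map (algebraMap k Ω)).transpose * ψΩ * (ρ s).map (algebraMap k Ω) =
      algebraMap k Ω (χ s) • ψΩ := by
    intro s
    have h1 := congrArg (fun M : Matrix ι ι k => M.map (algebraMap k Ω)) (hform s)
    simp only [Matrix.map_mul, Matrix.transpose_map] at h1
    rw [h1]
    ext i j
    simp only [hψΩ, Matrix.map_apply, Matrix.smul_apply, smul_eq_mul, map_mul]
  let q : ι → ι → MvPolynomial (ι × ι) Ω := fun i j =>
    ∑ l, ∑ m, X (l, i) * C (ψΩ l m) * X (m, j)
  have hq : ∀ (x : Matrix ι ι Ω) i j, val x (q i j) = (x.transpose * ψΩ * x) i j := by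
    intro x i j
    rw [triple]
    simp only [q, val, map_sum, map_mul, aeval_X, aeval_C, Algebra.algebraMap_self,
      RingHom.id_apply]
  by_cases h0 : ∃ a b, ψΩ a b ≠ 0
  · obtain ⟨a, b, hab⟩ := h0
    have key : ∀ i j, (g.transpose * ψΩ * g) i j * ψΩ a b =
        (g.transpose * ψΩ * g) a b * ψΩ i j := by
      intro i j
      have h1 := hg (q i j * C (ψΩ a b) - q a b * C (ψΩ i j)) (by
        intro s
        have h2 := hq ((ρ s).map (algebraMap k Ω)) i j
        have h3 := hq ((ρ s).map (algebraMap k Ω)) a b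
        unfold val at h2 h3 ⊢
        rw [map_sub, map_mul, map_mul, h2, h3, hω, Matrix.smul_apply, Matrix.smul_apply,
          aeval_C, aeval_C, Algebra.algebraMap_self, RingHom.id_apply, RingHom.id_apply,
          smul_eq_mul, smul_eq_mul]
        ring)
      have h2 := hq g i j
      have h3 := hq g a b
      unfold val at h1 h2 h3
      rw [map_sub, map_mul, map_mul, h2, h3, aeval_C, aeval_C, Algebra.algebraMap_self,
        RingHom.id_apply, RingHom.id_apply] at h1
      exact sub_eq_zero.1 h1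
    have h1 : g.transpose * ψΩ * g = ((g.transpose * ψΩ * g) a b / ψΩ a b) • ψΩ := by
      ext i j
      rw [Matrix.smul_apply, smul_eq_mul, div_mul_eq_mul_div, eq_div_iff hab, key]
    refine ⟨_, ?_, h1⟩
    intro h3
    rw [h3, zero_smul] at h1
    apply hab
    have hgt : IsUnit g.transpose.det := by rwa [Matrix.det_transpose]
    have h4 : (g.transpose)⁻¹ * (g.transpose * ψΩ * g) * g⁻¹ = ψΩ := by
      rw [mul_assoc g.transpose, ← mul_assoc, Matrix.nonsing_inv_mul _ hgt, one_mul,
        mul_assoc, Matrix.mul_nonsing_inv _ hgu, mul_one]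
    rw [← h4, h1, mul_zero, zero_mul]
    rfl
  · push Not at h0
    have h1 : ψΩ = 0 := by
      ext i j
      exact h0 i j
    have h2 := Matrix.mul_nonsing_inv _ hψ'
    rw [h1, zero_mul] at h2
    have h3 : ∀ M : Matrix ι ι Ω, M = 0 := fun M => by rw [← mul_one M, ← h2, mul_zero]
    exact ⟨1, one_ne_zero, by rw [h3 (g.transpose * _ * g), h3 ((1 : Ω) • _)]⟩

variable [Algebra.IsAlgebraic k Ω]

theorem main_T {ρ : Γ →* Matrix ι ι k} {χ : Γ →* k} {ψ : Matrix ι ι k} (hψ : IsUnit ψ.det)
    {E : Set (Matrix ι ι k)} (h : Known Ω ρ χ ψ E)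
    (hodd : OddOrTwo (repM ρ Ω) ((algebraMap k Ω).toMonoidHom.comp χ))
    (g : Matrix ι ι Ω) (hg : IsUnit g.det) :
    InClosure ρ g ↔
      (∃ c : Ω, c ≠ 0 ∧ g.transpose * ψ.map (algebraMap k Ω) * g = c • ψ.map (algebraMap k Ω)) ∧
      ∃ s, ∀ e ∈ E, g * e.map (algebraMap k Ω) =
        (ρ s * e * ρ s⁻¹).map (algebraMap k Ω) * g := by
  have hinv : ∀ s : Γ, ρ s⁻¹ * ρ s = 1 := fun s => by rw [← map_mul, inv_mul_cancel, map_one]
  have hinv' : ∀ s : Γ, ρ s * ρ s⁻¹ = 1 := fun s => by rw [← map_mul, mul_inv_cancel, map_one]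
  have hmone : (1 : Matrix ι ι k).map (algebraMap k Ω) = 1 :=
    Matrix.map_one _ (map_zero _) (map_one _)
  constructor
  · intro hc
    refine ⟨closure_form hψ h.form hg hc, ?_⟩
    obtain ⟨Δ0, hΔ0, hE0⟩ := h.endo
    let Δ := Δ0.normalCore
    have hfin : Δ.FiniteIndex := inferInstance
    have hE : ∀ s ∈ Δ, ∀ e ∈ E, e * ρ s = ρ s * e := fun s hs => hE0 s (Δ0.normalCore_le hs)
    have _ : Finite (Γ ⧸ Δ) := Subgroup.finite_quotient_of_finiteIndex
    have _ : Fintype (Γ ⧸ Δ) := Fintype.ofFinite _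
    by_contra hcon
    push Not at hcon
    have hcon' : ∀ q : Γ ⧸ Δ, ∃ e ∈ E, ∃ i j, (g * e.map (algebraMap k Ω)) i j ≠
        ((ρ q.out * e * ρ q.out⁻¹).map (algebraMap k Ω) * g) i j := by
      intro q
      obtain ⟨e, he, hne⟩ := hcon q.out
      by_contra hcon2
      push Not at hcon2
      apply hne
      ext i j
      exact hcon2 e he i j
    choose e he i j hij using hcon'
    let F : Γ ⧸ Δ → MvPolynomial (ι × ι) Ω := fun q =>
      sub 1 ((e q).map (algebraMap k Ω)) (X (i q, j q)) -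
        sub ((ρ q.out * e q * ρ q.out⁻¹).map (algebraMap k Ω)) 1 (X (i q, j q))
    have hF : ∀ (x : Matrix ι ι Ω) q, val x (F q) = (x * (e q).map (algebraMap k Ω)) (i q) (j q) -
        ((ρ q.out * e q * ρ q.out⁻¹).map (algebraMap k Ω) * x) (i q) (j q) := by
      intro x q
      rw [val_eq_ev, map_sub, ev_subX, ev_subX, one_mul, mul_one]
    have h1 := hc (∏ q, F q) (by
      intro t
      rw [val_eq_ev, map_prod]
      refine Finset.prod_eq_zero (Finset.mem_univ (QuotientGroup.mk t : Γ ⧸ Δ)) ?_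
      rw [← val_eq_ev, hF, sub_eq_zero]
      set q : Γ ⧸ Δ := QuotientGroup.mk t with hq
      have hd : q.out⁻¹ * t ∈ Δ := by
        rw [← QuotientGroup.eq]
        exact q.out_eq'
      have h2 := hE _ hd (e q) (he q)
      have h3 : ρ t * e q = (ρ q.out * e q * ρ q.out⁻¹) * ρ t := by
        have h4 : ρ t = ρ q.out * ρ (q.out⁻¹ * t) := by
          rw [← map_mul, mul_inv_cancel_left]
        rw [mul_assoc (ρ q.out * e q), ← map_mul, mul_assoc (ρ q.out), h2, ← mul_assoc, ← h4]
      rw [← Matrix.map_mul, h3, Matrix.map_mul])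
    rw [val_eq_ev, map_prod, Finset.prod_eq_zero_iff] at h1
    obtain ⟨q, -, hq⟩ := h1
    rw [← val_eq_ev, hF, sub_eq_zero] at hq
    exact hij q hq
  · rintro ⟨⟨c, hc, hgc⟩, s, hs⟩
    set a := (ρ s).map (algebraMap k Ω) with ha
    set b := (ρ s⁻¹).map (algebraMap k Ω) with hb
    have hba : b * a = 1 := by rw [ha, hb, ← Matrix.map_mul, hinv, hmone]
    have hab : a * b = 1 := by rw [ha, hb, ← Matrix.map_mul, hinv', hmone]
    have hbu : IsUnit b.det := by
      refine IsUnit.of_mul_eq_one a.det ?_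
      rw [← Matrix.det_mul, hba, Matrix.det_one]
    have hχ : ∀ s, ((ρ s).map (algebraMap k Ω)).transpose * ψ.map (algebraMap k Ω) *
        (ρ s).map (algebraMap k Ω) = algebraMap k Ω (χ s) • ψ.map (algebraMap k Ω) := by
      intro s
      have h1 := congrArg (fun M : Matrix ι ι k => M.map (algebraMap k Ω)) (h.form s)
      simp only [Matrix.map_mul, Matrix.transpose_map] at h1
      rw [h1]
      ext i j
      simp only [Matrix.map_apply, Matrix.smul_apply, smul_eq_mul, map_mul]
    have hχ0 : algebraMap k Ω (χ s⁻¹) ≠ 0 := by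
      rw [map_ne_zero]
      exact Pool.Agent.W522.U.χne s⁻¹
    have hz : InIdentityComponent ρ (b * g) := by
      rw [main_M hψ h hodd (b * g) (by rw [Matrix.det_mul]; exact hbu.mul hg)]
      refine ⟨⟨algebraMap k Ω (χ s⁻¹) * c, mul_ne_zero hχ0 hc, ?_⟩, fun e he => ?_⟩
      · have h1 : (b * g).transpose * ψ.map (algebraMap k Ω) * (b * g) =
            g.transpose * (b.transpose * ψ.map (algebraMap k Ω) * b) * g := by
          rw [Matrix.transpose_mul]
          simp only [mul_assoc]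
        rw [h1, hb, hχ, mul_smul_comm, smul_mul_assoc, hgc, smul_smul]
      · have h1 : b * (ρ s * e * ρ s⁻¹).map (algebraMap k Ω) = e.map (algebraMap k Ω) * b := by
          rw [hb, ← Matrix.map_mul, ← Matrix.map_mul]
          congr 1
          rw [← mul_assoc, ← mul_assoc, hinv, one_mul]
        rw [mul_assoc, hs e he, ← mul_assoc, h1, mul_assoc]
    intro f hf
    have h1 := hz (sub a 1 f) ⟨⊤, inferInstance, fun t _ => by
      rw [val_eq_ev, ev_sub, mul_one, ha, ← Matrix.map_mul, ← map_mul]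
      exact hf (s * t)⟩
    rw [val_eq_ev, ev_sub, mul_one, ← mul_assoc, hab, one_mul] at h1
    exact h1

end closure

end

end Pool.Agent.W528.ZC
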