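import Mathlib
import Pool.Agent.W528.ZC.Full

/-!
# The equations of the twisted Lefschetz group
-/

set_option linter.unusedSectionVars false

namespace Pool.Agent.W528.ZC

open Module MvPolynomial

noncomputable section

variable {ι : Type} [Fintype ι] [DecidableEq ι] {Γ : Type} [Group Γ]

/-- Equations of a coset of the Lefschetz group. -/
def lefT (ψ : Matrix ι ι ℚ) (E : Set (Matrix ι ι ℚ)) (τ : Matrix ι ι ℚ → Matrix ι ι ℚ) :
    Set (MvPolynomial (ι × ι) ℚ) :=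
  {f | ∃ e ∈ E, ∃ i j, f = (∑ l, X (i, l) * C (e l j)) - ∑ l, C (τ e i l) * X (l, j)} ∪
  {f | ∃ i j a b, f = (∑ l, ∑ m, X (l, i) * C (ψ l m) * X (m, j)) * C (ψ a b) -
    (∑ l, ∑ m, X (l, a) * C (ψ l m) * X (m, b)) * C (ψ i j)}

theorem lefT_iff {ψ : Matrix ι ι ℚ} (hψ : IsUnit ψ.det) {E : Set (Matrix ι ι ℚ)}
    (τ : Matrix ι ι ℚ → Matrix ι ι ℚ)
    (L : Type) [Field L] [Algebra ℚ L] (g : Matrix ι ι L) (hg : IsUnit g.det) :
    IsZeroOf (lefT ψ E τ) g ↔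
      (∃ c : L, c ≠ 0 ∧ g.transpose * mapQ L ψ * g = c • mapQ L ψ) ∧
      ∀ e ∈ E, g * mapQ L e = mapQ L (τ e) * g := by
  have h0 := lef_iff hψ (E := ∅) L g hg
  have e1 : ∀ (e : Matrix ι ι ℚ) (i j : ι), aeval (fun p : ι × ι => g p.1 p.2)
      ((∑ l, X (i, l) * C (e l j)) - ∑ l, C (τ e i l) * X (l, j) : MvPolynomial (ι × ι) ℚ) =
      (g * mapQ L e) i j - (mapQ L (τ e) * g) i j := by
    intro e i j
    simp only [mapQ, map_sub, map_sum, map_mul, aeval_X, aeval_C, Matrix.mul_apply,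
      Matrix.map_apply]
  constructor
  · intro h
    refine ⟨?_, fun e he => ?_⟩
    · refine (h0.1 ?_).1
      rintro f (⟨e, he, -⟩ | hf)
      · exact absurd he (Set.notMem_empty e)
      · exact h f (Or.inr hf)
    · ext i j
      have h2 := h _ (Or.inl ⟨e, he, i, j, rfl⟩)
      rwa [e1, sub_eq_zero] at h2
  · rintro ⟨hc, hE⟩ f (⟨e, he, i, j, rfl⟩ | hf)
    · rw [e1, hE e he, sub_self]
    · exact h0.2 ⟨hc, fun e he => absurd he (Set.notMem_empty e)⟩ f (Or.inr hf)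

/-- Products of equations: the union of the zero sets. -/
theorem union_iff {Q : Type} [Fintype Q] (S : Q → Set (MvPolynomial (ι × ι) ℚ))
    (L : Type) [Field L] [Algebra ℚ L] (g : Matrix ι ι L) :
    IsZeroOf {f | ∃ F : Q → MvPolynomial (ι × ι) ℚ, (∀ q, F q ∈ S q) ∧ f = ∏ q, F q} g ↔
      ∃ q, IsZeroOf (S q) g := by
  constructor
  · intro h
    by_contra hcon
    unfold IsZeroOf at hcon
    push Not at hcon
    choose F hF hFg using hcon
    have h1 := h _ ⟨F, hF, rfl⟩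
    rw [map_prod, Finset.prod_eq_zero_iff] at h1
    obtain ⟨q, -, hq⟩ := h1
    exact hFg q hq
  · rintro ⟨q, hq⟩ _ ⟨F, hF, rfl⟩
    rw [map_prod]
    exact Finset.prod_eq_zero (Finset.mem_univ q) (hq _ (hF q))

/-- Equations for preserving `ψ`. -/
def presEqs (ψ : Matrix ι ι ℚ) : Set (MvPolynomial (ι × ι) ℚ) :=
  {f | ∃ i j, f = (∑ l, ∑ m, X (l, i) * C (ψ l m) * X (m, j)) - C (ψ i j)}

theorem pres_iff (ψ : Matrix ι ι ℚ) (L : Type) [Field L] [Algebra ℚ L] (g : Matrix ι ι L) :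
    IsZeroOf (presEqs ψ) g ↔ Preserves ψ g := by
  have e2 : ∀ (i j : ι), aeval (fun p : ι × ι => g p.1 p.2)
      ((∑ l, ∑ m, X (l, i) * C (ψ l m) * X (m, j)) - C (ψ i j) : MvPolynomial (ι × ι) ℚ) =
      (g.transpose * mapQ L ψ * g) i j - mapQ L ψ i j := by
    intro i j
    rw [triple]
    simp only [mapQ, map_sub, map_sum, map_mul, aeval_X, aeval_C, Matrix.map_apply]
  constructor
  · intro h
    unfold Preserves
    ext i j
    have h2 := h _ ⟨i, j, rfl⟩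
    rwa [e2, sub_eq_zero] at h2
  · rintro h _ ⟨i, j, rfl⟩
    rw [e2, show g.transpose * mapQ L ψ * g = mapQ L ψ from h, sub_self]

theorem mapQ_inj {L : Type} [Field L] [Algebra ℚ L] {M N : Matrix ι ι ℚ}
    (h : mapQ L M = mapQ L N) : M = N := by
  ext i j
  have h1 := congrFun (congrFun h i) j
  exact (algebraMap ℚ L).injective h1

/-- The twisted Lefschetz group is defined over `ℚ`. -/
theorem twisted_eqs {ψ : Matrix ι ι ℚ} (hψ : IsUnit ψ.det) {E : Set (Matrix ι ι ℚ)}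
    (σ : Γ → Matrix ι ι ℚ → Matrix ι ι ℚ) (hfin : ∃ (Q : Type) (_ : Fintype Q) (t : Q → Γ),
      ∀ s, ∃ q, ∀ e ∈ E, σ s e = σ (t q) e) :
    ∃ S : Set (MvPolynomial (ι × ι) ℚ), ∀ (L : Type) [Field L] [Algebra ℚ L]
      (g : Matrix ι ι L), IsUnit g.det → (IsZeroOf S g ↔ InTwisted ψ E σ g) := by
  obtain ⟨Q, _, t, ht⟩ := hfin
  refine ⟨{f | ∃ F : Q → MvPolynomial (ι × ι) ℚ, (∀ q, F q ∈ lefT ψ E (σ (t q))) ∧
    f = ∏ q, F q}, fun L _ _ g hg => ?_⟩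
  refine (union_iff (fun q => lefT ψ E (σ (t q))) L g).trans ?_
  constructor
  · rintro ⟨q, hq⟩
    obtain ⟨h1, h2⟩ := (lefT_iff hψ _ L g hg).1 hq
    exact ⟨h1, t q, h2⟩
  · rintro ⟨h1, s, hs⟩
    obtain ⟨q, hq⟩ := ht s
    refine ⟨q, (lefT_iff hψ _ L g hg).2 ⟨h1, fun e he => ?_⟩⟩
    rw [← hq e he]
    exact hs e he

/-- A subgroup of finite index acts trivially on the endomorphisms. -/
theorem fin_of_good {E : Set (Matrix ι ι ℚ)} (σ : Γ → Matrix ι ι ℚ → Matrix ι ι ℚ)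
    {k : Type} [Field k] [Algebra ℚ k] (ρ : Γ →* Matrix ι ι k)
    (hσ : ∀ s, ∀ e ∈ E, ρ s * mapQ k e = mapQ k (σ s e) * ρ s)
    (hE : ∃ Δ : Subgroup Γ, Δ.FiniteIndex ∧ ∀ s ∈ Δ, ∀ e ∈ E, mapQ k e * ρ s = ρ s * mapQ k e) :
    ∃ (Q : Type) (_ : Fintype Q) (t : Q → Γ), ∀ s, ∃ q, ∀ e ∈ E, σ s e = σ (t q) e := by
  obtain ⟨Δ0, hΔ0, hE0⟩ := hE
  have hfin : Δ0.normalCore.FiniteIndex := inferInstance
  have _ : Finite (Γ ⧸ Δ0.normalCore) := Subgroup.finite_quotient_of_finiteIndex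
  have _ : Fintype (Γ ⧸ Δ0.normalCore) := Fintype.ofFinite _
  refine ⟨Γ ⧸ Δ0.normalCore, inferInstance, fun q => q.out, fun s =>
    ⟨QuotientGroup.mk s, fun e he => ?_⟩⟩
  set q : Γ ⧸ Δ0.normalCore := QuotientGroup.mk s with hq
  have hd : q.out⁻¹ * s ∈ Δ0.normalCore := by
    rw [← QuotientGroup.eq]
    exact q.out_eq'
  have h2 := hE0 _ (Δ0.normalCore_le hd) e he
  have h4 : ρ s = ρ q.out * ρ (q.out⁻¹ * s) := by
    rw [← map_mul, mul_inv_cancel_left]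
  have h5 : ρ s * ρ s⁻¹ = 1 := by rw [← map_mul, mul_inv_cancel, map_one]
  apply mapQ_inj (L := k)
  have h6 : mapQ k (σ s e) * ρ s = mapQ k (σ q.out e) * ρ s := by
    rw [← hσ s e he, h4, mul_assoc, ← h2, ← mul_assoc, hσ q.out e he, mul_assoc]
  rw [← mul_one (mapQ k (σ s e)), ← mul_one (mapQ k (σ q.out e)), ← h5, ← mul_assoc,
    ← mul_assoc, h6]

end

end Pool.Agent.W528.ZC
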